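import Mathlib

/-!
# Approximate fiducial vectors: the Alltop vector with one enlarged coordinate
-/

set_option autoImplicit false

namespace Pool.Agent.R114.SIC.Alltop

open Finset

variable {F : Type} [Field F] [Fintype F] [DecidableEq F]

/-- quadratic exponential sums have modulus `√q` -/
theorem quad_sum (ψ : AddChar F ℂ) (hψ : ψ.IsPrimitive) (h2 : (2 : F) ≠ 0) (α β γ : F)
    (hα : α ≠ 0) : ‖∑ x, ψ (α * x ^ 2 + β * x + γ)‖ ^ 2 = Fintype.card F := by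
  have h1 : (((‖∑ x, ψ (α * x ^ 2 + β * x + γ)‖ ^ 2 : ℝ)) : ℂ) = (Fintype.card F : ℂ) := by
    rw [Complex.ofReal_pow, ← Complex.mul_conj', map_sum, sum_mul_sum, sum_comm]
    have h3 : ∀ y : F, ∑ x, ψ (α * x ^ 2 + β * x + γ) *
        (starRingEnd ℂ) (ψ (α * y ^ 2 + β * y + γ)) =
        ∑ h, ψ (α * h ^ 2 + β * h) * ψ (2 * α * h * y) := by
      intro y
      rw [← Equiv.sum_comp (Equiv.addRight y)]
      refine sum_congr rfl fun h _ => ?_
      rw [← AddChar.inv_apply_eq_conj, ← div_eq_mul_inv, ← AddChar.map_sub_eq_div,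
        ← AddChar.map_add_eq_mul, Equiv.coe_addRight]
      congr 1
      ring
    simp only [h3]
    rw [sum_comm]
    have h4 : ∀ h : F, ∑ y, ψ (α * h ^ 2 + β * h) * ψ (2 * α * h * y) =
        if h = 0 then (Fintype.card F : ℂ) else 0 := by
      intro h
      rw [← mul_sum]
      split_ifs with h0
      · subst h0
        simp
      · have h5 : ∑ y, ψ (2 * α * h * y) = 0 := by
          have h6 := AddChar.sum_mulShift (2 * α * h) hψ
          rw [if_neg (mul_ne_zero (mul_ne_zero h2 hα) h0), Nat.cast_zero] at h6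
          rw [← h6]
          refine sum_congr rfl fun y _ => ?_
          rw [mul_comm]
        rw [h5, mul_zero]
    simp only [h4]
    simp
  exact_mod_cast h1

/-- linear sums vanish -/
theorem lin_sum (ψ : AddChar F ℂ) (hψ : ψ.IsPrimitive) (β : F) (hβ : β ≠ 0) :
    ∑ x, ψ (β * x) = 0 := by
  have h6 := AddChar.sum_mulShift β hψ
  rw [if_neg hβ, Nat.cast_zero] at h6
  rw [← h6]
  refine sum_congr rfl fun y _ => ?_
  rw [mul_comm]

/-- The displacement operator: `(D_{a,b} v)(x) = ψ(b x) v(x - a)`. -/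
noncomputable def disp (ψ : AddChar F ℂ) (a b : F) (v : EuclideanSpace ℂ F) :
    EuclideanSpace ℂ F :=
  WithLp.toLp 2 (fun x => ψ (b * x) * v (x - a))

theorem disp_apply (ψ : AddChar F ℂ) (a b : F) (v : EuclideanSpace ℂ F) (x : F) :
    disp ψ a b v x = ψ (b * x) * v (x - a) := rfl

theorem inner_sum' (u v : EuclideanSpace ℂ F) :
    (inner ℂ u v : ℂ) = ∑ x, star (u x) * v x := by
  rw [PiLp.inner_apply]
  refine sum_congr rfl fun x _ => ?_
  rw [RCLike.inner_apply, mul_comm]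
  rfl

/-- inner products of displaced vectors -/
theorem norm_inner_disp (ψ : AddChar F ℂ) (a b a' b' : F) (u v : EuclideanSpace ℂ F) :
    ‖(inner ℂ (disp ψ a b u) (disp ψ a' b' v) : ℂ)‖ =
      ‖(inner ℂ u (disp ψ (a' - a) (b' - b) v) : ℂ)‖ := by
  have h1 : (inner ℂ (disp ψ a b u) (disp ψ a' b' v) : ℂ) =
      ψ ((b' - b) * a) * inner ℂ u (disp ψ (a' - a) (b' - b) v) := by
    rw [inner_sum', inner_sum', mul_sum, ← Equiv.sum_comp (Equiv.addRight a)]
    refine sum_congr rfl fun x _ => ?_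
    simp only [disp_apply, Equiv.coe_addRight, add_sub_cancel_right]
    have h2 : star (ψ (b * (x + a)) * u x) = ψ (-(b * (x + a))) * star (u x) := by
      rw [star_mul']
      congr 1
      exact (AddChar.map_neg_eq_conj ψ _).symm
    have h3 : x + a - a' = x - (a' - a) := by ring
    rw [h2, h3]
    have h4 : ψ (-(b * (x + a))) * ψ (b' * (x + a)) = ψ ((b' - b) * a) * ψ ((b' - b) * x) := by
      rw [← AddChar.map_add_eq_mul, ← AddChar.map_add_eq_mul]
      congr 1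
      ring
    linear_combination (star (u x) * v (x - (a' - a))) * h4
  rw [h1, norm_mul, AddChar.norm_apply, one_mul]

theorem norm_disp (ψ : AddChar F ℂ) (a b : F) (v : EuclideanSpace ℂ F) :
    ‖disp ψ a b v‖ = ‖v‖ := by
  rw [EuclideanSpace.norm_eq, EuclideanSpace.norm_eq]
  congr 1
  rw [← Equiv.sum_comp (Equiv.addRight a)]
  refine sum_congr rfl fun x _ => ?_
  rw [disp_apply, norm_mul, AddChar.norm_apply, one_mul, Equiv.coe_addRight, add_sub_cancel_right]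

/-- the orbit is an exactly tight frame -/
theorem tight (ψ : AddChar F ℂ) (hψ : ψ.IsPrimitive) (v u : EuclideanSpace ℂ F) :
    ∑ a, ∑ b, ‖(inner ℂ (disp ψ a b v) u : ℂ)‖ ^ 2 = Fintype.card F * ‖v‖ ^ 2 * ‖u‖ ^ 2 := by
  have h1 : ∀ a, ∑ b, ‖(inner ℂ (disp ψ a b v) u : ℂ)‖ ^ 2 =
      Fintype.card F * ∑ x, ‖v (x - a)‖ ^ 2 * ‖u x‖ ^ 2 := by
    intro a
    have h2 : ∀ b, (inner ℂ (disp ψ a b v) u : ℂ) =
        ∑ x, ψ (-(b * x)) * (star (v (x - a)) * u x) := by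
      intro b
      rw [inner_sum']
      refine sum_congr rfl fun x _ => ?_
      rw [disp_apply, star_mul']
      have : star (ψ (b * x)) = ψ (-(b * x)) := (AddChar.map_neg_eq_conj ψ _).symm
      rw [this]
      ring
    have h3 : ((∑ b, ‖(inner ℂ (disp ψ a b v) u : ℂ)‖ ^ 2 : ℝ) : ℂ) =
        ((Fintype.card F * ∑ x, ‖v (x - a)‖ ^ 2 * ‖u x‖ ^ 2 : ℝ) : ℂ) := by
      rw [Complex.ofReal_sum]
      have h4 : ∀ b, (((‖(inner ℂ (disp ψ a b v) u : ℂ)‖ ^ 2 : ℝ)) : ℂ) =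
          ∑ x, ∑ y, ψ ((y - x) * b) * ((star (v (x - a)) * u x) *
            (starRingEnd ℂ) (star (v (y - a)) * u y)) := by
        intro b
        rw [Complex.ofReal_pow, ← Complex.mul_conj', h2, map_sum, sum_mul_sum]
        refine sum_congr rfl fun x _ => sum_congr rfl fun y _ => ?_
        rw [map_mul (starRingEnd ℂ) (ψ (-(b * y))), ← AddChar.map_neg_eq_conj, neg_neg]
        have h5 : ψ (-(b * x)) * ψ (b * y) = ψ ((y - x) * b) := by
          rw [← AddChar.map_add_eq_mul]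
          congr 1
          ring
        linear_combination ((star (v (x - a)) * u x) *
            (starRingEnd ℂ) (star (v (y - a)) * u y)) * h5
      simp only [h4]
      rw [sum_comm]
      push_cast
      rw [mul_sum]
      refine sum_congr rfl fun x _ => ?_
      rw [sum_comm, ← Finset.add_sum_erase _ _ (mem_univ x)]
      have h6 : ∑ y ∈ univ.erase x, ∑ b, ψ ((y - x) * b) * ((star (v (x - a)) * u x) *
            (starRingEnd ℂ) (star (v (y - a)) * u y)) = 0 := by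
        refine sum_eq_zero fun y hy => ?_
        rw [← sum_mul, lin_sum ψ hψ _ (sub_ne_zero.mpr (ne_of_mem_erase hy)), zero_mul]
      rw [h6, add_zero]
      simp only [sub_self, zero_mul, AddChar.map_zero_eq_one, one_mul, sum_const, card_univ,
        nsmul_eq_mul]
      rw [Complex.mul_conj', norm_mul, norm_star]
      push_cast
      ring
    exact_mod_cast h3
  simp only [h1]
  rw [← mul_sum, sum_comm, mul_assoc]
  congr 1
  have h7 : ∀ x, ∑ a, ‖v (x - a)‖ ^ 2 * ‖u x‖ ^ 2 = ‖v‖ ^ 2 * ‖u x‖ ^ 2 := by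
    intro x
    rw [← sum_mul, EuclideanSpace.norm_sq_eq v]
    congr 1
    exact Equiv.sum_comp (Equiv.subLeft x) (fun y => ‖v y‖ ^ 2)
  simp only [h7]
  rw [← mul_sum, EuclideanSpace.norm_sq_eq u]

/-- The vector with entries `ψ(x³)`, except that the entry at `0` is `√(1 + √q)`. -/
noncomputable def vec (ψ : AddChar F ℂ) : EuclideanSpace ℂ F :=
  WithLp.toLp 2 (fun x => if x = 0 then ((√(1 + √(Fintype.card F : ℝ)) : ℝ) : ℂ) else ψ (x ^ 3))

theorem vec_apply (ψ : AddChar F ℂ) (x : F) :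
    vec ψ x = ψ (x ^ 3) + ((√(1 + √(Fintype.card F : ℝ)) - 1 : ℝ) : ℂ) * if x = 0 then 1 else 0 := by
  change (if x = 0 then ((√(1 + √(Fintype.card F : ℝ)) : ℝ) : ℂ) else ψ (x ^ 3)) = _
  split_ifs with h
  · subst h
    simp
  · simp

theorem norm_vec_sq (ψ : AddChar F ℂ) (x : F) :
    ‖vec ψ x‖ ^ 2 = 1 + √(Fintype.card F : ℝ) * if x = 0 then 1 else 0 := by
  change ‖(if x = 0 then ((√(1 + √(Fintype.card F : ℝ)) : ℝ) : ℂ) else ψ (x ^ 3))‖ ^ 2 = _
  split_ifs with h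
  · rw [Complex.norm_real, Real.norm_of_nonneg (Real.sqrt_nonneg _), Real.sq_sqrt (by positivity),
      mul_one]
  · rw [AddChar.norm_apply]; simp

theorem norm_vec (ψ : AddChar F ℂ) :
    ‖vec ψ‖ ^ 2 = Fintype.card F + √(Fintype.card F : ℝ) := by
  rw [EuclideanSpace.norm_sq_eq]
  simp only [norm_vec_sq]
  rw [sum_add_distrib]
  simp

/-- overlaps for translations in the second direction only -/
theorem overlap_zero (ψ : AddChar F ℂ) (hψ : ψ.IsPrimitive) (b : F) (hb : b ≠ 0) :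
    (inner ℂ (vec ψ) (disp ψ 0 b (vec ψ)) : ℂ) = ((√(Fintype.card F : ℝ) : ℝ) : ℂ) := by
  rw [inner_sum']
  have h1 : ∀ x, star (vec ψ x) * disp ψ 0 b (vec ψ) x =
      ψ (b * x) + ((√(Fintype.card F : ℝ) : ℝ) : ℂ) * (if x = 0 then ψ (b * x) else 0) := by
    intro x
    rw [disp_apply, sub_zero]
    have h2 : star (vec ψ x) * (ψ (b * x) * vec ψ x) = ψ (b * x) * ((‖vec ψ x‖ ^ 2 : ℝ) : ℂ) := by
      rw [Complex.ofReal_pow, ← Complex.conj_mul']
      change (starRingEnd ℂ) (vec ψ x) * (ψ (b * x) * vec ψ x) = _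
      ring
    rw [h2, norm_vec_sq]
    split_ifs <;> push_cast <;> ring
  simp only [h1]
  rw [sum_add_distrib, lin_sum ψ hψ b hb, ← mul_sum]
  simp

/-- the other overlaps -/
theorem overlap_ne (ψ : AddChar F ℂ) (hψ : ψ.IsPrimitive) (h2 : (2 : F) ≠ 0) (h3 : (3 : F) ≠ 0)
    (a b : F) (ha : a ≠ 0) :
    |‖(inner ℂ (vec ψ) (disp ψ a b (vec ψ)) : ℂ)‖ - √(Fintype.card F : ℝ)| ≤
      2 * (√(1 + √(Fintype.card F : ℝ)) - 1) := by
  set t : ℝ := √(1 + √(Fintype.card F : ℝ)) - 1 with ht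
  have ht0 : 0 ≤ t := by
    rw [ht, sub_nonneg]
    rw [Real.one_le_sqrt]
    linarith [Real.sqrt_nonneg (Fintype.card F : ℝ)]
  set M : ℂ := ∑ x : F, ψ (-(3 * a) * x ^ 2 + (3 * a ^ 2 + b) * x + (-a ^ 3)) with hM
  have hMn : ‖M‖ = √(Fintype.card F : ℝ) := by
    rw [← quad_sum ψ hψ h2 (-(3 * a)) (3 * a ^ 2 + b) (-a ^ 3)
      (neg_ne_zero.mpr (mul_ne_zero h3 ha)), ← hM, Real.sqrt_sq (norm_nonneg _)]
  have h4 : (inner ℂ (vec ψ) (disp ψ a b (vec ψ)) : ℂ) =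
      M + ((t : ℂ) * ψ ((0 - a) ^ 3) + (t : ℂ) * (star (ψ (a ^ 3)) * ψ (b * a))) := by
    rw [inner_sum']
    have h5 : ∀ x, star (vec ψ x) * disp ψ a b (vec ψ) x =
        ψ (-(3 * a) * x ^ 2 + (3 * a ^ 2 + b) * x + (-a ^ 3)) +
        ((t : ℂ) * (if x = 0 then ψ (b * x) * ψ ((x - a) ^ 3) else 0) +
        (t : ℂ) * (if x = a then star (ψ (x ^ 3)) * ψ (b * x) else 0)) := by
      intro x
      rw [disp_apply, vec_apply, vec_apply, ← ht]
      have h6 : ψ (-(3 * a) * x ^ 2 + (3 * a ^ 2 + b) * x + (-a ^ 3)) =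
          star (ψ (x ^ 3)) * (ψ (b * x) * ψ ((x - a) ^ 3)) := by
        have : star (ψ (x ^ 3)) = ψ (-(x ^ 3)) := (AddChar.map_neg_eq_conj ψ _).symm
        rw [this, ← AddChar.map_add_eq_mul, ← AddChar.map_add_eq_mul]
        congr 1
        ring
      have hst : star (t : ℂ) = t := by simp
      rw [h6, star_add, star_mul', hst]
      by_cases hx0 : x = 0
      · have hxa : x ≠ a := by rw [hx0]; exact ha.symm
        have hxa' : x - a ≠ 0 := sub_ne_zero.mpr hxa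
        simp only [hx0, if_true]
        rw [if_neg (by simpa using ha), if_neg ha.symm]
        simp
        ring
      · by_cases hxa : x = a
        · subst hxa
          simp only [sub_self, if_true]
          simp [hx0]
          ring
        · have hxa' : x - a ≠ 0 := sub_ne_zero.mpr hxa
          rw [if_neg hx0, if_neg hxa', if_neg hxa, if_neg hx0]
          simp
    simp only [h5]
    rw [sum_add_distrib, sum_add_distrib, ← mul_sum, ← mul_sum, hM]
    simp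
  have h7 : ‖(t : ℂ) * ψ ((0 - a) ^ 3) + (t : ℂ) * (star (ψ (a ^ 3)) * ψ (b * a))‖ ≤ 2 * t := by
    refine (norm_add_le _ _).trans (le_of_eq ?_)
    rw [norm_mul, norm_mul, norm_mul, norm_star, AddChar.norm_apply, AddChar.norm_apply,
      AddChar.norm_apply, Complex.norm_real, Real.norm_of_nonneg ht0]
    ring
  rw [h4, ← hMn]
  calc |‖M + ((t : ℂ) * ψ ((0 - a) ^ 3) + (t : ℂ) * (star (ψ (a ^ 3)) * ψ (b * a)))‖ - ‖M‖|
      ≤ ‖M + ((t : ℂ) * ψ ((0 - a) ^ 3) + (t : ℂ) * (star (ψ (a ^ 3)) * ψ (b * a))) - M‖ :=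
        abs_norm_sub_norm_le _ _
    _ = ‖(t : ℂ) * ψ ((0 - a) ^ 3) + (t : ℂ) * (star (ψ (a ^ 3)) * ψ (b * a))‖ := by
        rw [add_sub_cancel_left]
    _ ≤ 2 * t := h7

theorem disp_smul (ψ : AddChar F ℂ) (a b : F) (c : ℂ) (v : EuclideanSpace ℂ F) :
    disp ψ a b (c • v) = c • disp ψ a b v := by
  ext x
  rw [disp_apply]
  simp only [PiLp.smul_apply, disp_apply, smul_eq_mul]
  ring

/-- the normalised vector -/
noncomputable def fid (ψ : AddChar F ℂ) : EuclideanSpace ℂ F :=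
  ((1 / √(Fintype.card F + √(Fintype.card F : ℝ)) : ℝ) : ℂ) • vec ψ

theorem card_pos' : (0 : ℝ) < Fintype.card F := by
  exact_mod_cast Fintype.card_pos

theorem norm_fid (ψ : AddChar F ℂ) : ‖fid ψ‖ = 1 := by
  have hq := card_pos' (F := F)
  have h0 : (0 : ℝ) < Fintype.card F + √(Fintype.card F : ℝ) := by positivity
  have h1 : ‖vec ψ‖ = √(Fintype.card F + √(Fintype.card F : ℝ)) := by
    rw [← norm_vec ψ, Real.sqrt_sq (norm_nonneg _)]
  rw [fid, norm_smul, h1, Complex.norm_real, Real.norm_of_nonneg (by positivity)]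
  exact one_div_mul_cancel (Real.sqrt_pos.mpr h0).ne'

theorem poly_bound {σ X : ℝ} (hσ : 1 ≤ σ) (hX0 : 0 ≤ X) (hX : |X - σ ^ 2| ≤ 2 * σ) :
    |(σ ^ 4 + 1) * (X / (σ ^ 4 + σ ^ 2)) ^ 2 - 1| ≤ 8 / σ := by
  have hσ0 : 0 < σ := by linarith
  have hX1 := (abs_le.mp hX).1
  have hX2 := (abs_le.mp hX).2
  have hD : 0 < σ ^ 4 + σ ^ 2 := by positivity
  have e0 : (σ ^ 4 + 1) * (X / (σ ^ 4 + σ ^ 2)) ^ 2 = (σ ^ 4 + 1) * X ^ 2 / (σ ^ 4 + σ ^ 2) ^ 2 := by
    rw [div_pow, mul_div_assoc]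
  rw [abs_le]
  constructor
  · rcases le_or_gt σ 8 with h8 | h8
    · have h1 : 1 ≤ 8 / σ := by rw [le_div_iff₀ hσ0]; linarith
      have h2 : 0 ≤ (σ ^ 4 + 1) * (X / (σ ^ 4 + σ ^ 2)) ^ 2 := by positivity
      linarith
    · have h1 : (σ ^ 2 - 2 * σ) ^ 2 ≤ X ^ 2 := by
        apply pow_le_pow_left₀ _ (by linarith)
        nlinarith
      have h2 : 1 - 8 / σ ≤ (σ ^ 4 + 1) * X ^ 2 / (σ ^ 4 + σ ^ 2) ^ 2 := by
        rw [le_div_iff₀ (by positivity)]
        have h3 : (1 - 8 / σ) * (σ ^ 4 + σ ^ 2) ^ 2 = (σ - 8) * (σ ^ 3 * (σ ^ 2 + 1) ^ 2) := by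
          field_simp
        rw [h3]
        have h4 : (σ ^ 4 + 1) * (σ ^ 2 - 2 * σ) ^ 2 ≤ (σ ^ 4 + 1) * X ^ 2 :=
          mul_le_mul_of_nonneg_left h1 (by positivity)
        refine le_trans ?_ h4
        have h5 : (σ ^ 4 + 1) * (σ ^ 2 - 2 * σ) ^ 2 - (σ - 8) * (σ ^ 3 * (σ ^ 2 + 1) ^ 2) =
            σ ^ 2 * (4 * σ ^ 5 + 2 * σ ^ 4 + 16 * σ ^ 3 + 4 * σ + 4) := by ring
        have h6 : 0 ≤ σ ^ 2 * (4 * σ ^ 5 + 2 * σ ^ 4 + 16 * σ ^ 3 + 4 * σ + 4) := by positivity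
        linarith
      rw [e0]
      linarith
  · have h1 : X ^ 2 ≤ (σ ^ 2 + 2 * σ) ^ 2 := by
      apply pow_le_pow_left₀ hX0
      linarith
    have h2 : (σ ^ 4 + 1) * X ^ 2 / (σ ^ 4 + σ ^ 2) ^ 2 ≤ 1 + 8 / σ := by
      rw [div_le_iff₀ (by positivity)]
      have h3 : (1 + 8 / σ) * (σ ^ 4 + σ ^ 2) ^ 2 = (σ + 8) * (σ ^ 3 * (σ ^ 2 + 1) ^ 2) := by
        field_simp
      rw [h3]
      have h4 : (σ ^ 4 + 1) * X ^ 2 ≤ (σ ^ 4 + 1) * (σ ^ 2 + 2 * σ) ^ 2 :=
        mul_le_mul_of_nonneg_left h1 (by positivity)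
      refine h4.trans ?_
      have h5 : (σ + 8) * (σ ^ 3 * (σ ^ 2 + 1) ^ 2) - (σ ^ 4 + 1) * (σ ^ 2 + 2 * σ) ^ 2 =
          σ ^ 2 * (4 * σ ^ 4 * (σ - 1) + 2 * σ ^ 4 + 16 * σ ^ 3 + 4 * (σ - 1)) := by ring
      have h7 : 0 ≤ σ - 1 := by linarith
      have h6 : 0 ≤ σ ^ 2 * (4 * σ ^ 4 * (σ - 1) + 2 * σ ^ 4 + 16 * σ ^ 3 + 4 * (σ - 1)) := by
        positivity
      linarith
    rw [e0]
    linarith

/-- the displaced vectors are nearly equiangular -/
theorem near_equiangular (ψ : AddChar F ℂ) (hψ : ψ.IsPrimitive) (h2 : (2 : F) ≠ 0)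
    (h3 : (3 : F) ≠ 0) (a b a' b' : F) (h : (a, b) ≠ (a', b')) :
    |((Fintype.card F : ℝ) + 1) * ‖(inner ℂ (disp ψ a b (fid ψ)) (disp ψ a' b' (fid ψ)) : ℂ)‖ ^ 2
      - 1| ≤ 8 / √(√(Fintype.card F : ℝ)) := by
  have hq := card_pos' (F := F)
  have hq1 : (1 : ℝ) ≤ Fintype.card F := by exact_mod_cast Fintype.card_pos (α := F)
  set s : ℝ := √(Fintype.card F : ℝ) with hs
  have hs1 : 1 ≤ s := by rw [hs, Real.one_le_sqrt]; exact hq1
  have hss : s ^ 2 = Fintype.card F := Real.sq_sqrt hq.le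
  set σ : ℝ := √s with hσ
  have hσ1 : 1 ≤ σ := by rw [hσ, Real.one_le_sqrt]; exact hs1
  have hσs : σ ^ 2 = s := Real.sq_sqrt (by linarith)
  have hσ4 : σ ^ 4 = Fintype.card F := by
    rw [← hss, ← hσs]; ring
  set X : ℝ := ‖(inner ℂ (vec ψ) (disp ψ (a' - a) (b' - b) (vec ψ)) : ℂ)‖ with hX
  have h1 : ‖(inner ℂ (disp ψ a b (fid ψ)) (disp ψ a' b' (fid ψ)) : ℂ)‖ = X / (σ ^ 4 + σ ^ 2) := by
    have hD : 0 < (Fintype.card F : ℝ) + s := by positivity
    rw [norm_inner_disp, fid, disp_smul, inner_smul_left, inner_smul_right, norm_mul, norm_mul,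
      RCLike.norm_conj, Complex.norm_real, Real.norm_of_nonneg (by positivity), ← hX, hσ4, hσs,
      ← hs, ← mul_assoc, ← sq, div_pow, one_pow, Real.sq_sqrt hD.le]
    ring
  have h4 : |X - σ ^ 2| ≤ 2 * σ := by
    rw [hσs]
    by_cases ha : a' - a = 0
    · have hb : b' - b ≠ 0 := by
        intro hb
        apply h
        rw [sub_eq_zero.mp ha, sub_eq_zero.mp hb]
      have : X = s := by
        rw [hX, ha, overlap_zero ψ hψ _ hb, Complex.norm_real,
          Real.norm_of_nonneg (Real.sqrt_nonneg _)]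
      rw [this, sub_self, abs_zero]
      positivity
    · refine (overlap_ne ψ hψ h2 h3 _ _ ha).trans ?_
      rw [← hs]
      have h5 : √(1 + s) ≤ 1 + σ := by
        rw [Real.sqrt_le_left (by positivity)]
        have : (1 + σ) ^ 2 = 1 + s + 2 * σ := by rw [← hσs]; ring
        rw [this]
        linarith
      linarith
  rw [h1, ← hσ4]
  exact poly_bound hσ1 (norm_nonneg _) h4

end Pool.Agent.R114.SIC.Alltop
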