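import Pool.Agent.R114.SIC.Sidon

/-!
# Exact weighted two-designs from subsets of the Singer difference set
-/

set_option autoImplicit false

open Finset

namespace Pool.Agent.R114.SIC

open Pool.Agent.H109R2.SIC

/-- a sum over quadruples supported on the pairs of a Sidon set -/
theorem quad_sum {d : ℕ} (α β γ δ : Fin d → ℂ) (c : ℂ) (R : Fin d → Fin d → Fin d → Fin d → Prop)
    [∀ a b s t, Decidable (R a b s t)]
    (hR : ∀ a b s t, R a b s t ↔ (a = b ∧ s = t) ∨ (a = t ∧ s = b)) :
    ∑ a, ∑ b, ∑ s, ∑ t, (α a * β b * (γ s * δ t)) * (if R a b s t then c else 0) =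
      c * ((∑ a, α a * β a) * (∑ s, γ s * δ s) + (∑ a, α a * δ a) * (∑ s, γ s * β s)
        - ∑ a, α a * β a * (γ a * δ a)) := by
  have h1 : ∀ a b s t, (α a * β b * (γ s * δ t)) * (if R a b s t then c else 0) =
      (if a = b then (if s = t then c * (α a * β b * (γ s * δ t)) else 0) else 0)
      + (if a = t then (if s = b then c * (α a * β b * (γ s * δ t)) else 0) else 0)
      - (if a = b then (if s = t then (if a = s then c * (α a * β b * (γ s * δ t)) else 0)
          else 0) else 0) := by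
    intro a b s t
    rw [if_congr (hR a b s t) rfl rfl]
    by_cases h1 : a = b <;> by_cases h2 : s = t <;> by_cases h3 : a = t <;> by_cases h4 : s = b <;>
      by_cases h5 : a = s <;> simp_all <;> ring
  simp only [h1, sum_sub_distrib, sum_add_distrib]
  have e1 : ∑ a, ∑ b, ∑ s, ∑ t, (if a = b then (if s = t then c * (α a * β b * (γ s * δ t))
      else 0) else 0) = c * ((∑ a, α a * β a) * (∑ s, γ s * δ s)) := by
    have : ∀ a b : Fin d, ∑ s, ∑ t, (if a = b then (if s = t then c * (α a * β b * (γ s * δ t))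
      else 0) else 0) = if a = b then ∑ s, c * (α a * β b * (γ s * δ s)) else 0 := by
      intro a b
      split_ifs
      · simp
      · simp
    simp only [this, sum_ite_eq, mem_univ, if_true]
    rw [sum_mul_sum, mul_sum]
    apply sum_congr rfl; intro a _
    rw [mul_sum]
  have e2 : ∑ a, ∑ b, ∑ s, ∑ t, (if a = t then (if s = b then c * (α a * β b * (γ s * δ t))
      else 0) else 0) = c * ((∑ a, α a * δ a) * (∑ s, γ s * β s)) := by
    have : ∀ a b : Fin d, ∑ s, ∑ t, (if a = t then (if s = b then c * (α a * β b * (γ s * δ t))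
      else 0) else 0) = c * (α a * β b * (γ b * δ a)) := by
      intro a b
      simp
    simp only [this]
    rw [sum_mul_sum, mul_sum]
    apply sum_congr rfl; intro a _
    rw [mul_sum]
    apply sum_congr rfl; intro b _
    ring
  have e3 : ∑ a, ∑ b, ∑ s, ∑ t, (if a = b then (if s = t then (if a = s then
      c * (α a * β b * (γ s * δ t)) else 0) else 0) else 0) =
      c * ∑ a, α a * β a * (γ a * δ a) := by
    have : ∀ a b : Fin d, ∑ s, ∑ t, (if a = b then (if s = t then (if a = s then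
      c * (α a * β b * (γ s * δ t)) else 0) else 0) else 0) =
      if a = b then c * (α a * β b * (γ a * δ a)) else 0 := by
      intro a b
      split_ifs
      · simp
      · simp
    simp only [this, sum_ite_eq, mem_univ, if_true]
    rw [mul_sum]
  rw [e1, e2, e3]
  ring

variable (p : ℕ) [Fact p.Prime]

theorem design_frame (d : ℕ) (hd : 1 ≤ d) (hdp : d ≤ p + 1) (L : ℝ) (hL1 : 1 ≤ L)
    (hL : Real.log (2 * (2 * ((p : ℝ) ^ 2 + p + 1) + 1)) ≤ L) :
    ∃ v : Fin (p ^ 2 + p + 1) → EuclideanSpace ℂ (Fin d), (∀ i, ‖v i‖ = 1) ∧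
      (∀ i j, i ≠ j →
        |(d : ℝ) * ‖inner ℂ (v i) (v j)‖ - √p| ≤ 9 * √(((p + 1 - d : ℕ) : ℝ) * L)) ∧
      (∀ i k, ‖v i k‖ ^ 2 = 1 / d) ∧
      ∀ a b c e : EuclideanSpace ℂ (Fin d),
        ∑ i, (inner ℂ a (v i) * inner ℂ (v i) b) * (inner ℂ c (v i) * inner ℂ (v i) e)
          + (((p ^ 2 + p + 1 : ℕ) : ℂ) / (d : ℂ) ^ 2) *
            ∑ k, (star (a k) * b k) * (star (c k) * e k) =
          (((p ^ 2 + p + 1 : ℕ) : ℂ) / (d : ℂ) ^ 2) *
            (inner ℂ a b * inner ℂ c e + inner ℂ a e * inner ℂ c b) := by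
  classical
  obtain ⟨E, hED, hEc, hE⟩ := exists_sub' p d hdp L hL1 hL
  have hcA : Fintype.card (AddChar (A3 p) ℂ) = p ^ 2 + p + 1 := by
    rw [AddChar.card_eq, card_A3]
  let e : Fin (p ^ 2 + p + 1) ≃ AddChar (A3 p) ℂ :=
    (Fintype.equivFinOfCardEq hcA).symm
  let f : Fin d ≃ E := (E.equivFinOfCardEq hEc).symm
  have hd0 : (0 : ℝ) < d := by exact_mod_cast hd
  have hsd : (√d : ℂ) ≠ 0 := by
    have : √(d : ℝ) ≠ 0 := (Real.sqrt_pos.mpr hd0).ne'
    exact_mod_cast this
  have hsd2 : ((√d : ℝ) : ℂ) * ((√d : ℝ) : ℂ) = (d : ℂ) := by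
    rw [← Complex.ofReal_mul, Real.mul_self_sqrt hd0.le]
    simp
  have hdC : (d : ℂ) ≠ 0 := by
    have : (d : ℝ) ≠ 0 := hd0.ne'
    exact_mod_cast this
  let v : Fin (p ^ 2 + p + 1) → EuclideanSpace ℂ (Fin d) := fun i =>
    WithLp.toLp 2 (fun k => e i (f k : A3 p) / ((√d : ℝ) : ℂ))
  have hv : ∀ i k, v i k = e i (f k : A3 p) / ((√d : ℝ) : ℂ) := fun _ _ => rfl
  have hnorm : ∀ i k, ‖v i k‖ ^ 2 = 1 / d := by
    intro i k
    rw [hv, norm_div, (e i).norm_apply, Complex.norm_real, Real.norm_of_nonneg (Real.sqrt_nonneg _),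
      div_pow, one_pow, Real.sq_sqrt hd0.le]
  refine ⟨v, ?_, ?_, hnorm, ?_⟩
  · intro i
    rw [EuclideanSpace.norm_eq]
    rw [sum_congr rfl (fun k _ => hnorm i k), sum_const, card_univ, Fintype.card_fin, nsmul_eq_mul,
      mul_one_div_cancel hd0.ne', Real.sqrt_one]
  · intro i j hij
    have h1 : inner ℂ (v i) (v j) = (1 / (d : ℂ)) * ∑ g ∈ E, (e j / e i) g := by
      rw [PiLp.inner_apply, mul_sum, ← Finset.sum_coe_sort E]
      apply Fintype.sum_equiv f
      intro k
      rw [RCLike.inner_apply, hv, hv, AddChar.div_apply', map_div₀, Complex.conj_ofReal,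
        ← AddChar.inv_apply_eq_conj]
      rw [div_mul_div_comm, hsd2]
      field_simp
    have hne : e j / e i ≠ 1 := by
      intro h
      exact hij (e.injective (div_eq_one.mp h)).symm
    have h2 := hE (e j / e i) hne
    rw [h1, norm_mul, norm_div, norm_one, Complex.norm_natCast]
    have h3 : (d : ℝ) * (1 / d * ‖∑ g ∈ E, (e j / e i) g‖) = ‖∑ g ∈ E, (e j / e i) g‖ := by
      field_simp
    rw [h3]
    exact h2
  · intro a b c z
    have in1 : ∀ (u : EuclideanSpace ℂ (Fin d)) i,
        inner ℂ u (v i) = ∑ k, star (u k) * (e i (f k : A3 p) / ((√d : ℝ) : ℂ)) := by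
      intro u i
      rw [PiLp.inner_apply]
      apply sum_congr rfl
      intro k _
      rw [RCLike.inner_apply, hv]
      rw [mul_comm]; rfl
    have in2 : ∀ (u : EuclideanSpace ℂ (Fin d)) i,
        inner ℂ (v i) u = ∑ k, u k * (e i (-(f k : A3 p)) / ((√d : ℝ) : ℂ)) := by
      intro u i
      rw [PiLp.inner_apply]
      apply sum_congr rfl
      intro k _
      rw [RCLike.inner_apply, hv, map_div₀, Complex.conj_ofReal, ← AddChar.inv_apply_eq_conj,
        AddChar.map_neg_eq_inv]
    have in3 : ∀ u w : EuclideanSpace ℂ (Fin d), inner ℂ u w = ∑ k, star (u k) * w k := by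
      intro u w
      rw [PiLp.inner_apply]
      apply sum_congr rfl
      intro k _
      rw [RCLike.inner_apply, mul_comm]; rfl
    have h1 : ∀ i, (inner ℂ a (v i) * inner ℂ (v i) b) * (inner ℂ c (v i) * inner ℂ (v i) z) =
        ∑ k, ∑ l, ∑ s, ∑ t, (star (a k) * b l * (star (c s) * z t)) * ((1 / (d : ℂ) ^ 2) *
          e i ((f k : A3 p) - f l + (f s : A3 p) - f t)) := by
      intro i
      rw [in1, in2, in1, in2, sum_mul_sum, sum_mul_sum, sum_mul_sum]
      apply sum_congr rfl; intro k _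
      rw [sum_comm]
      have : ∀ s, (∑ l, star (a k) * (e i (f k : A3 p) / ((√d : ℝ) : ℂ)) *
          (b l * (e i (-(f l : A3 p)) / ((√d : ℝ) : ℂ)))) *
          (∑ t, star (c s) * (e i (f s : A3 p) / ((√d : ℝ) : ℂ)) *
          (z t * (e i (-(f t : A3 p)) / ((√d : ℝ) : ℂ)))) =
          ∑ l, ∑ t, (star (a k) * b l * (star (c s) * z t)) * ((1 / (d : ℂ) ^ 2) *
          e i ((f k : A3 p) - f l + (f s : A3 p) - f t)) := by
        intro s
        rw [sum_mul_sum]
        apply sum_congr rfl; intro l _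
        apply sum_congr rfl; intro t _
        have hx : e i ((f k : A3 p) - f l + (f s : A3 p) - f t) =
            e i (f k : A3 p) * e i (-(f l : A3 p)) * e i (f s : A3 p) * e i (-(f t : A3 p)) := by
          rw [sub_eq_add_neg, sub_eq_add_neg, AddChar.map_add_eq_mul, AddChar.map_add_eq_mul,
            AddChar.map_add_eq_mul]
        rw [hx, ← hsd2]
        field_simp
      rw [sum_comm]
      simp only [this]
      rw [sum_comm]
    have h2 : ∀ k l s t, ∑ i, e i ((f k : A3 p) - f l + (f s : A3 p) - f t) =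
        if (f k : A3 p) + f s = f l + f t then ((p ^ 2 + p + 1 : ℕ) : ℂ) else 0 := by
      intro k l s t
      have h7 : ∑ i, e i ((f k : A3 p) - f l + (f s : A3 p) - f t) =
          ∑ ψ : AddChar (A3 p) ℂ, ψ ((f k : A3 p) - f l + (f s : A3 p) - f t) :=
        Fintype.sum_equiv e _ _ (fun _ => rfl)
      rw [h7, AddChar.sum_apply_eq_ite, card_A3]
      apply if_congr _ rfl rfl
      rw [← sub_eq_zero (a := (f k : A3 p) + f s)]
      have : (f k : A3 p) - f l + (f s : A3 p) - f t = (f k : A3 p) + f s - (f l + f t) := by abel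
      rw [this]
    have h3 : ∑ i, (inner ℂ a (v i) * inner ℂ (v i) b) * (inner ℂ c (v i) * inner ℂ (v i) z) =
        (1 / (d : ℂ) ^ 2) * ∑ k, ∑ l, ∑ s, ∑ t, (star (a k) * b l * (star (c s) * z t)) *
          (if (f k : A3 p) + f s = f l + f t then ((p ^ 2 + p + 1 : ℕ) : ℂ) else 0) := by
      rw [sum_congr rfl (fun i _ => h1 i), sum_comm, mul_sum]
      apply sum_congr rfl; intro k _
      rw [sum_comm, mul_sum]
      apply sum_congr rfl; intro l _
      rw [sum_comm, mul_sum]
      apply sum_congr rfl; intro s _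
      rw [sum_comm, mul_sum]
      apply sum_congr rfl; intro t _
      rw [← h2, ← mul_sum, ← mul_sum]
      ring
    rw [h3, quad_sum (fun k => star (a k)) (fun k => b k) (fun k => star (c k)) (fun k => z k) _
      (fun k l s t => (f k : A3 p) + f s = f l + f t)]
    · rw [in3, in3, in3, in3]
      field_simp
      ring
    · intro k l s t
      constructor
      · intro h
        have hm : ∀ k, (f k : A3 p) ∈ D3 p := fun k => hED (f k).2
        rcases sidon p (hm k) (hm s) (hm l) (hm t) h with ⟨h1, h2⟩ | ⟨h1, h2⟩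
        · left
          exact ⟨f.injective (Subtype.ext h1), f.injective (Subtype.ext h2)⟩
        · right
          exact ⟨f.injective (Subtype.ext h1), f.injective (Subtype.ext h2)⟩
      · rintro (⟨rfl, rfl⟩ | ⟨rfl, rfl⟩)
        · rfl
        · rw [add_comm]

end Pool.Agent.R114.SIC
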