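import Pool.Agent.R114.SIC.RealNear

/-!
# Maximal systems of lines with imaginary triple products: the subspace they span
-/

set_option autoImplicit false

namespace Pool.Agent.R114.SIC

open Finset Matrix Pool.Agent.H109R2.SIC

variable {d : ℕ} {x : Fin (d ^ 2) → EuclideanSpace ℂ (Fin d)}

theorem imag_frame (hx : IsMaxETF d x) {S : Finset (Fin (d ^ 2))}
    {c : Fin (d ^ 2) → ℂ} (hc : ImagPhases x S c) (hS : S.card = d + 2)
    (u : EuclideanSpace ℂ (Fin d)) {k : Fin (d ^ 2)} (hk : k ∈ S) :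
    ∑ j ∈ S, (inner ℂ u (c j • x j) : ℂ) * inner ℂ (c j • x j) (c k • x k) =
      2 * inner ℂ u (c k • x k) := by
  have h1 := imag_vanish hx hc hS u (c k • x k)
  rw [← Finset.add_sum_erase S _ hk, scaled_self hx (hc.1 k hk)] at h1 ⊢
  have h2 : ∑ j ∈ S.erase k, (inner ℂ u (c j • x j) : ℂ) * inner ℂ (c j • x j) (c k • x k) =
      -∑ j ∈ S.erase k, (inner ℂ u (c j • x j) : ℂ) * inner ℂ (c k • x k) (c j • x j) := by
    rw [← Finset.sum_neg_distrib]
    refine Finset.sum_congr rfl fun j hj => ?_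
    rw [Finset.mem_erase] at hj
    have h3 : (inner ℂ (c j • x j) (c k • x k) : ℂ) = -inner ℂ (c k • x k) (c j • x j) := by
      rw [← star_inner (c k • x k) (c j • x j)]
      have h4 := hc.2 k hk j hj.2 hj.1.symm
      set z : ℂ := inner ℂ (c k • x k) (c j • x j) with hz
      exact Complex.ext (by simp [h4]) (by simp)
    rw [h3]
    ring
  rw [h2]
  linear_combination -h1

theorem smul_cancel {a : ℂ} (ha : ‖a‖ = 1) : star a * a = 1 := by
  have := Complex.conj_mul' a
  change (starRingEnd ℂ) a * a = 1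
  rw [this, ha]
  norm_num

theorem imag_frame' (hx : IsMaxETF d x) {S : Finset (Fin (d ^ 2))}
    {c : Fin (d ^ 2) → ℂ} (hc : ImagPhases x S c) (hS : S.card = d + 2)
    {k : Fin (d ^ 2)} (hk : k ∈ S) :
    ∑ j ∈ S, (inner ℂ (x j) (x k) : ℂ) • x j = (2 : ℂ) • x k := by
  apply ext_inner_left ℂ
  intro u
  rw [inner_sum, inner_smul_right]
  have h1 := imag_frame hx hc hS u hk
  have hck : c k ≠ 0 := by
    intro h0
    have := hc.1 k hk
    rw [h0, norm_zero] at this
    exact zero_ne_one this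
  have h2 : ∀ j ∈ S, (inner ℂ u (c j • x j) : ℂ) * inner ℂ (c j • x j) (c k • x k) =
      c k * inner ℂ u ((inner ℂ (x j) (x k) : ℂ) • x j) := by
    intro j hj
    rw [inner_smul_smul, inner_smul_right, inner_smul_right]
    have := smul_cancel (hc.1 j hj)
    linear_combination (c k * inner ℂ u (x j) * inner ℂ (x j) (x k)) * this
  rw [Finset.sum_congr rfl h2, ← Finset.mul_sum, inner_smul_right] at h1
  apply mul_left_cancel₀ hck
  rw [h1]
  ring

/-- the frame operator of the lines in `S` -/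
noncomputable def FS (x : Fin (d ^ 2) → EuclideanSpace ℂ (Fin d)) (S : Finset (Fin (d ^ 2))) :
    EuclideanSpace ℂ (Fin d) →ₗ[ℂ] EuclideanSpace ℂ (Fin d) :=
  ∑ j ∈ S, (innerₛₗ ℂ (x j)).smulRight (x j)

theorem FS_apply (S : Finset (Fin (d ^ 2))) (v : EuclideanSpace ℂ (Fin d)) :
    FS x S v = ∑ j ∈ S, (inner ℂ (x j) v : ℂ) • x j := by
  simp [FS, LinearMap.sum_apply]

theorem FS_trace (hx : IsMaxETF d x) (S : Finset (Fin (d ^ 2))) :
    LinearMap.trace ℂ _ (FS x S) = S.card := by
  unfold FS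
  rw [map_sum]
  have : ∀ j ∈ S, LinearMap.trace ℂ _ ((innerₛₗ ℂ (x j)).smulRight (x j)) = 1 := by
    intro j _
    rw [LinearMap.trace_smulRight]
    exact inner_self_one hx j
  rw [Finset.sum_congr rfl this]
  simp

/-- the span of the lines in `S` -/
noncomputable def spanS (x : Fin (d ^ 2) → EuclideanSpace ℂ (Fin d)) (S : Finset (Fin (d ^ 2))) :
    Submodule ℂ (EuclideanSpace ℂ (Fin d)) :=
  Submodule.span ℂ (x '' (S : Set (Fin (d ^ 2))))

theorem imag_span_frame (hx : IsMaxETF d x) {S : Finset (Fin (d ^ 2))}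
    {c : Fin (d ^ 2) → ℂ} (hc : ImagPhases x S c) (hS : S.card = d + 2)
    (v : EuclideanSpace ℂ (Fin d)) (hv : v ∈ spanS x S) : FS x S v = (2 : ℂ) • v := by
  induction hv using Submodule.span_induction with
  | mem v hv =>
    obtain ⟨k, hk, rfl⟩ := hv
    rw [FS_apply]
    exact imag_frame' hx hc hS hk
  | zero => simp
  | add v w _ _ h1 h2 => rw [map_add, h1, h2, smul_add]
  | smul a v _ h1 => rw [map_smul, h1, smul_comm]

theorem FS_mem (S : Finset (Fin (d ^ 2))) (v : EuclideanSpace ℂ (Fin d)) :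
    FS x S v ∈ spanS x S := by
  rw [FS_apply]
  exact Submodule.sum_mem _ fun j hj => Submodule.smul_mem _ _
    (Submodule.subset_span ⟨j, hj, rfl⟩)

theorem imag_finrank (hx : IsMaxETF d x) {S : Finset (Fin (d ^ 2))}
    {c : Fin (d ^ 2) → ℂ} (hc : ImagPhases x S c) (hS : S.card = d + 2) :
    2 * Module.finrank ℂ (spanS x S) = d + 2 := by
  have h1 : LinearMap.IsProj (spanS x S) ((1 / 2 : ℂ) • FS x S) := by
    constructor
    · intro v
      exact Submodule.smul_mem _ _ (FS_mem S v)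
    · intro v hv
      rw [LinearMap.smul_apply, imag_span_frame hx hc hS v hv, smul_smul]
      norm_num
  have h2 := h1.trace
  rw [map_smul, FS_trace hx, hS, smul_eq_mul] at h2
  have h3 : ((2 * Module.finrank ℂ (spanS x S) : ℕ) : ℂ) = ((d + 2 : ℕ) : ℂ) := by
    rw [Nat.cast_mul, ← h2]
    push_cast
    ring
  exact_mod_cast h3

end Pool.Agent.R114.SIC
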