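import Pool.Agent.Y387.AP.Main
import Pool.Agent.R114.SIC.Design2

/-!
# Exact weighted two-designs with nearly minimal cardinality in every dimension
-/

set_option autoImplicit false

open Finset

namespace Pool.Agent.R114.SIC

/-- The unit vectors `x i` with the positive weights `w i` of sum `1` form a weighted complex
projective two-design: `∑ w_i (x_i x_i^*) ⊗ (x_i x_i^*) = (1 + swap) / (d (d + 1))`. -/
def IsWeightedTwoDesign {d N : ℕ} (x : Fin N → EuclideanSpace ℂ (Fin d)) (w : Fin N → ℝ) : Prop :=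
  (∀ i, ‖x i‖ = 1) ∧ (∀ i, 0 < w i) ∧ ∑ i, w i = 1 ∧
  ∀ a b c e : EuclideanSpace ℂ (Fin d),
    ∑ i, (w i : ℂ) * ((inner ℂ a (x i) * inner ℂ (x i) b) * (inner ℂ c (x i) * inner ℂ (x i) e)) =
      (1 / ((d : ℂ) * (d + 1))) * (inner ℂ a b * inner ℂ c e + inner ℂ a e * inner ℂ c b)

/-- assembling the flat vectors and the standard basis -/
theorem assemble {d n : ℕ} (hd : 1 ≤ d) (hn : 0 < n) (v : Fin n → EuclideanSpace ℂ (Fin d))
    (hv : ∀ i, ‖v i‖ = 1) (hflat : ∀ i k, ‖v i k‖ ^ 2 = 1 / d)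
    (hid : ∀ a b c e : EuclideanSpace ℂ (Fin d),
        ∑ i, (inner ℂ a (v i) * inner ℂ (v i) b) * (inner ℂ c (v i) * inner ℂ (v i) e)
          + ((n : ℂ) / (d : ℂ) ^ 2) * ∑ k, (star (a k) * b k) * (star (c k) * e k) =
          ((n : ℂ) / (d : ℂ) ^ 2) *
            (inner ℂ a b * inner ℂ c e + inner ℂ a e * inner ℂ c b))
    (η : ℝ) (h1 : 1 / (d : ℝ) ≤ η) (h2 : |(d : ℝ) ^ 2 * ((d : ℝ) / (n * (d + 1))) - 1| ≤ η)
    (h3 : ∀ i j, i ≠ j → |((d : ℝ) + 1) * ‖inner ℂ (v i) (v j)‖ ^ 2 - 1| ≤ η) :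
    ∃ (x : Fin (n + d) → EuclideanSpace ℂ (Fin d)) (w : Fin (n + d) → ℝ) (B : Finset (Fin (n + d))),
      IsWeightedTwoDesign x w ∧ B.card = d ∧
      (∀ i, |(d : ℝ) ^ 2 * w i - 1| ≤ η) ∧
      (∀ i j, i ≠ j → ¬ (i ∈ B ∧ j ∈ B) →
        |((d : ℝ) + 1) * ‖inner ℂ (x i) (x j)‖ ^ 2 - 1| ≤ η) := by
  classical
  have hd0 : (0 : ℝ) < d := by exact_mod_cast hd
  have hn0 : (0 : ℝ) < n := by exact_mod_cast hn
  have hdC : (d : ℂ) ≠ 0 := by exact_mod_cast (by omega : d ≠ 0)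
  have hnC : (n : ℂ) ≠ 0 := by exact_mod_cast (by omega : n ≠ 0)
  have hd1C : (d : ℂ) + 1 ≠ 0 := by exact_mod_cast Nat.succ_ne_zero d
  let u : Fin d → EuclideanSpace ℂ (Fin d) := fun k => EuclideanSpace.single k 1
  let x : Fin (n + d) → EuclideanSpace ℂ (Fin d) := Fin.append v u
  let w : Fin (n + d) → ℝ := Fin.append (fun _ => (d : ℝ) / (n * (d + 1)))
    (fun _ => 1 / ((d : ℝ) * (d + 1)))
  have hxl : ∀ i : Fin n, x (Fin.castAdd d i) = v i := fun i => Fin.append_left _ _ i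
  have hxr : ∀ k : Fin d, x (Fin.natAdd n k) = u k := fun k => Fin.append_right _ _ k
  have hwl : ∀ i : Fin n, w (Fin.castAdd d i) = (d : ℝ) / (n * (d + 1)) :=
    fun i => Fin.append_left _ _ i
  have hwr : ∀ k : Fin d, w (Fin.natAdd n k) = 1 / ((d : ℝ) * (d + 1)) :=
    fun k => Fin.append_right _ _ k
  have huv : ∀ i k, ‖inner ℂ (v i) (u k)‖ ^ 2 = 1 / d := by
    intro i k
    simp only [u]
    rw [EuclideanSpace.inner_single_right, one_mul]
    have : ‖(starRingEnd ℂ) (v i k)‖ = ‖v i k‖ := RCLike.norm_conj _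
    rw [this]
    exact hflat i k
  have hfb : |((d : ℝ) + 1) * (1 / d) - 1| ≤ η := by
    have : ((d : ℝ) + 1) * (1 / d) - 1 = 1 / d := by field_simp; ring
    rw [this, abs_of_pos (by positivity)]
    exact h1
  refine ⟨x, w, univ.image (Fin.natAdd n), ⟨?_, ?_, ?_, ?_⟩, ?_, ?_, ?_⟩
  · intro i
    refine Fin.addCases (fun i => ?_) (fun k => ?_) i
    · rw [hxl]; exact hv i
    · rw [hxr]; simp [u]
  · intro i
    refine Fin.addCases (fun i => ?_) (fun k => ?_) i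
    · rw [hwl]; positivity
    · rw [hwr]; positivity
  · rw [Fin.sum_univ_add]
    simp only [hwl, hwr, sum_const, card_univ, Fintype.card_fin, nsmul_eq_mul]
    field_simp
  · intro a b c e
    rw [Fin.sum_univ_add]
    simp only [hwl, hwr, hxl, hxr]
    have e1 : ∀ k, (inner ℂ a (u k) * inner ℂ (u k) b) * (inner ℂ c (u k) * inner ℂ (u k) e) =
        (star (a k) * b k) * (star (c k) * e k) := by
      intro k
      simp only [u, EuclideanSpace.inner_single_right, EuclideanSpace.inner_single_left, map_one,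
        one_mul]
      rfl
    simp only [e1]
    rw [← mul_sum, ← mul_sum]
    have h4 := hid a b c e
    push_cast
    have h5 : ∑ i, (inner ℂ a (v i) * inner ℂ (v i) b) * (inner ℂ c (v i) * inner ℂ (v i) e) =
        ((n : ℂ) / (d : ℂ) ^ 2) *
            (inner ℂ a b * inner ℂ c e + inner ℂ a e * inner ℂ c b)
          - ((n : ℂ) / (d : ℂ) ^ 2) * ∑ k, (star (a k) * b k) * (star (c k) * e k) := by
      rw [← h4]; ring
    rw [h5]
    field_simp
    ring
  · rw [card_image_of_injective _ (Fin.natAdd_injective d n), card_univ, Fintype.card_fin]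
  · intro i
    refine Fin.addCases (fun i => ?_) (fun k => ?_) i
    · rw [hwl]; exact h2
    · rw [hwr]
      have : (d : ℝ) ^ 2 * (1 / ((d : ℝ) * (d + 1))) - 1 = -(1 / (d + 1)) := by
        field_simp; ring
      rw [this, abs_neg, abs_of_pos (by positivity)]
      refine le_trans ?_ h1
      apply one_div_le_one_div_of_le hd0
      linarith
  · intro i j
    refine Fin.addCases (fun i => ?_) (fun k => ?_) i
    · refine Fin.addCases (fun j => ?_) (fun l => ?_) j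
      · intro hij _
        rw [hxl, hxl]
        exact h3 i j (fun h => hij (by rw [h]))
      · intro _ _
        rw [hxl, hxr, huv]
        exact hfb
    · refine Fin.addCases (fun j => ?_) (fun l => ?_) j
      · intro _ _
        rw [hxl, hxr, norm_inner_symm, huv]
        exact hfb
      · intro _ h
        exfalso
        apply h
        exact ⟨mem_image_of_mem _ (mem_univ _), mem_image_of_mem _ (mem_univ _)⟩

open Pool.Agent.Y387.AP in
/-- large dimensions -/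
theorem large : ∃ (c C : ℝ) (d₀ : ℕ), 0 < c ∧ c ≤ 1 ∧ 0 < C ∧ 1 ≤ d₀ ∧ ∀ d : ℕ, d₀ ≤ d →
    ∃ (N : ℕ) (x : Fin N → EuclideanSpace ℂ (Fin d)) (w : Fin N → ℝ) (B : Finset (Fin N)),
      IsWeightedTwoDesign x w ∧ (N : ℝ) ≤ (1 + C * (d : ℝ) ^ (-c)) * (d : ℝ) ^ 2 ∧ B.card = d ∧
      (∀ i, |(d : ℝ) ^ 2 * w i - 1| ≤ C * (d : ℝ) ^ (-c)) ∧
      (∀ i j, i ≠ j → ¬ (i ∈ B ∧ j ∈ B) →
        |((d : ℝ) + 1) * ‖inner ℂ (x i) (x j)‖ ^ 2 - 1| ≤ C * (d : ℝ) ^ (-c)) := by
  obtain ⟨δ, d₀, hδ0, hδ1, hd₀, hq⟩ := prime_power_short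
  set B : ℝ := 9 * √(18 / δ) with hB
  have hB0 : 0 ≤ B := by positivity
  refine ⟨δ / 4, (2 * (B * (B + 3)) + 4) + 12, d₀, by positivity, by linarith, by positivity,
    by omega, fun d hd => ?_⟩
  obtain ⟨p, hp, hdp, hp1, hp2⟩ := hq d hd
  have : Fact p.Prime := ⟨hp⟩
  have hd2 : 30 ≤ d := hd₀.trans hd
  have hdR : (30 : ℝ) ≤ d := by exact_mod_cast hd2
  have hd0 : (0 : ℝ) < d := by linarith
  have hdpR : (d : ℝ) < p := by exact_mod_cast hdp
  have hpR : (0 : ℝ) < p := by linarith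
  have hp2R : (p : ℝ) ≤ 2 * d := by exact_mod_cast hp2
  set l := Real.log d with hl
  have hl1 : 1 ≤ l := by
    rw [hl, Real.le_log_iff_exp_le hd0]
    have := Real.exp_one_lt_d9
    linarith
  have hll : l ≤ (2 / δ) * (d : ℝ) ^ (δ / 2) := by
    have h1 := Real.log_le_rpow_div (x := (d : ℝ)) hd0.le (ε := δ / 2) (by positivity)
    rw [← hl] at h1
    refine h1.trans (le_of_eq ?_)
    field_simp
  -- powers of `d`
  set s : ℝ := (d : ℝ) ^ (-(δ / 4)) with hs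
  have hs0 : 0 < s := Real.rpow_pos_of_pos hd0 _
  have hs1 : s ≤ 1 := Real.rpow_le_one_of_one_le_of_nonpos (by linarith) (by linarith)
  have hs2 : s ^ 2 = (d : ℝ) ^ (-(δ / 2)) := by
    rw [hs, ← Real.rpow_natCast, ← Real.rpow_mul hd0.le]
    congr 1
    push_cast
    ring
  have hs4 : (d : ℝ) ^ (1 - δ) = d * s ^ 4 := by
    have : s ^ 4 = (d : ℝ) ^ (-δ) := by
      rw [hs, ← Real.rpow_natCast, ← Real.rpow_mul hd0.le]
      congr 1
      push_cast
      ring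
    rw [this, sub_eq_add_neg, Real.rpow_add hd0, Real.rpow_one]
  have hs5 : (d : ℝ) ^ (δ / 2) * s ^ 2 = 1 := by
    rw [hs2, ← Real.rpow_add hd0]
    simp
  have hs6 : 1 / (d : ℝ) ≤ s := by
    rw [hs, one_div, ← Real.rpow_neg_one]
    exact Real.rpow_le_rpow_of_exponent_le (by linarith) (by linarith)
  have hs7 : 1 ≤ d * s ^ 4 := by
    rw [← hs4]
    exact Real.one_le_rpow (by linarith) (by linarith)
  have hs8 : s ^ 4 ≤ s := by
    calc s ^ 4 = s * s ^ 3 := by ring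
      _ ≤ s * 1 := mul_le_mul_of_nonneg_left (pow_le_one₀ hs0.le hs1) hs0.le
      _ = s := mul_one _
  rw [hs4] at hp1
  have hK : d ^ 2 ≤ p ^ 2 + p + 1 := by
    have : d ^ 2 ≤ p ^ 2 := Nat.pow_le_pow_left hdp.le 2
    omega
  obtain ⟨v, hv1, hv2, hv3, hv4⟩ := design_frame p d (by omega) (by omega) (3 * l) (by linarith)
    (by
      have h1 : 2 * (2 * ((p : ℝ) ^ 2 + p + 1) + 1) ≤ (d : ℝ) ^ 3 := aux1 hpR.le hp2R hdR
      calc Real.log (2 * (2 * ((p : ℝ) ^ 2 + p + 1) + 1)) ≤ Real.log ((d : ℝ) ^ 3) :=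
            Real.log_le_log (by positivity) h1
        _ = 3 * l := by rw [Real.log_pow]; norm_num [hl])
  -- number of vectors
  have hs40 : 0 < s ^ 4 := by positivity
  have hs41 : s ^ 4 ≤ 1 := pow_le_one₀ hs0.le hs1
  have hN : ((p ^ 2 + p + 1 : ℕ) : ℝ) ≤ (1 + 11 * s ^ 4) * (d : ℝ) ^ 2 := by
    push_cast
    exact aux2 hpR.le hdR hs40 hs41 hp1 hs7
  set m : ℕ := p + 1 - d with hm
  have hmR : (m : ℝ) = p + 1 - d := by
    rw [hm, Nat.cast_sub (by omega)]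
    push_cast
    ring
  have hm1 : (m : ℝ) ≤ 3 * (d * s ^ 4) := by
    rw [hmR]
    linarith
  have hmL : (m : ℝ) * (3 * l) ≤ (18 / δ) * (d * s ^ 2) := by
    calc (m : ℝ) * (3 * l) ≤ (3 * (d * s ^ 4)) * (3 * ((2 / δ) * (d : ℝ) ^ (δ / 2))) := by
          apply mul_le_mul hm1 _ (by linarith) (by positivity)
          linarith
      _ = (18 / δ) * (d * s ^ 2) * ((d : ℝ) ^ (δ / 2) * s ^ 2) := by ring
      _ = (18 / δ) * (d * s ^ 2) := by rw [hs5, mul_one]
  have hsd : 0 ≤ √(d : ℝ) := Real.sqrt_nonneg _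
  have hsd2 : √(d : ℝ) * √d = d := Real.mul_self_sqrt hd0.le
  set E : ℝ := 9 * √((m : ℝ) * (3 * l)) with hE
  have hE0 : 0 ≤ E := by positivity
  have hE1 : E ≤ B * (√d * s) := by
    rw [hE, hB, mul_assoc]
    apply mul_le_mul_of_nonneg_left _ (by norm_num)
    calc √((m : ℝ) * (3 * l)) ≤ √((18 / δ) * (d * s ^ 2)) := Real.sqrt_le_sqrt hmL
      _ = √(18 / δ) * (√d * s) := by
          rw [Real.sqrt_mul (by positivity), Real.sqrt_mul hd0.le, Real.sqrt_sq hs0.le]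
  have hE2 : E ≤ B * √d := by
    refine hE1.trans (mul_le_mul_of_nonneg_left ?_ hB0)
    exact mul_le_of_le_one_right hsd hs1
  have hsp : √(p : ℝ) ≤ 3 / 2 * √d := by
    rw [Real.sqrt_le_left (by positivity), mul_pow, Real.sq_sqrt hd0.le]
    linarith
  have hC0 : 0 ≤ 2 * (B * (B + 3)) * s := by positivity
  obtain ⟨x, w, B', h1, h2, h3, h4⟩ := assemble (n := p ^ 2 + p + 1) (by omega) (by positivity) v
    hv1 hv3 hv4 ((2 * (B * (B + 3)) + 4 + 12) * s)
    (by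
      refine hs6.trans ?_
      have : (2 * (B * (B + 3)) + 4 + 12) * s = 2 * (B * (B + 3)) * s + 15 * s + s := by ring
      rw [this]
      linarith)
    (by
      have hnn : (0 : ℝ) < ((p ^ 2 + p + 1 : ℕ) : ℝ) := by positivity
      have hKR : (d : ℝ) ^ 2 ≤ ((p ^ 2 + p + 1 : ℕ) : ℝ) := by exact_mod_cast hK
      set n : ℝ := ((p ^ 2 + p + 1 : ℕ) : ℝ) with hn
      have e0 : (d : ℝ) ^ 2 * ((d : ℝ) / (n * (d + 1))) - 1 =
          -((n * (d + 1) - d ^ 3) / (n * (d + 1))) := by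
        field_simp
        ring
      have e1 : 0 ≤ n * (d + 1) - (d : ℝ) ^ 3 := by
        have : (d : ℝ) ^ 2 * d ≤ n * d := mul_le_mul_of_nonneg_right hKR hd0.le
        nlinarith
      rw [e0, abs_neg, abs_of_nonneg (div_nonneg e1 (by positivity)), div_le_iff₀ (by positivity)]
      have e2 : n * (d + 1) - (d : ℝ) ^ 3 ≤ 11 * s ^ 4 * d ^ 2 * (d + 1) + d ^ 2 := by
        have : n * (d + 1) ≤ ((1 + 11 * s ^ 4) * (d : ℝ) ^ 2) * (d + 1) :=
          mul_le_mul_of_nonneg_right hN (by positivity)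
        nlinarith
      have e3 : 11 * s ^ 4 * (d : ℝ) ^ 2 * (d + 1) ≤ 11 * s * (n * (d + 1)) := by
        have t1 : s ^ 4 * (d : ℝ) ^ 2 ≤ s * n := mul_le_mul hs8 hKR (by positivity) hs0.le
        have t2 : s ^ 4 * (d : ℝ) ^ 2 * (d + 1) ≤ s * n * (d + 1) :=
          mul_le_mul_of_nonneg_right t1 (by positivity)
        nlinarith
      have e4 : (d : ℝ) ^ 2 ≤ s * (n * (d + 1)) := by
        have t1 : 1 ≤ s * (d + 1) := by
          have := mul_le_mul_of_nonneg_left hs6 hd0.le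
          rw [mul_one_div_cancel hd0.ne'] at this
          nlinarith
        have t2 : (d : ℝ) ^ 2 * 1 ≤ n * (s * (d + 1)) :=
          mul_le_mul hKR t1 (by norm_num) hnn.le
        nlinarith
      have e5 : (2 * (B * (B + 3)) + 4 + 12) * s * (n * (d + 1)) =
          (2 * (B * (B + 3)) * s) * (n * (d + 1)) + 16 * (s * (n * (d + 1))) := by ring
      have e6 : 0 ≤ (2 * (B * (B + 3)) * s) * (n * (d + 1)) := by positivity
      have e7 : 0 ≤ s * (n * (d + 1)) := by positivity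
      rw [e5]
      linarith)
    (by
      intro i j hij
      set x : ℝ := (d : ℝ) * ‖inner ℂ (v i) (v j)‖ with hx
      have hx1 : |x - √p| ≤ E := hv2 i j hij
      have hx0 : 0 ≤ x := by positivity
      have h1 : ((d : ℝ) + 1) * ‖inner ℂ (v i) (v j)‖ ^ 2 - 1 =
          (d + 1) / d ^ 2 * (x ^ 2 - p) + ((d + 1) * p - d ^ 2) / d ^ 2 := by
        rw [hx]
        field_simp
        ring
      have h2 : |x ^ 2 - p| ≤ (B * (B + 3)) * (d * s) := by
        have e1 : x ^ 2 - p = (x - √p) * (x + √p) := aux6 hpR.le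
        have e2 : x + √p ≤ (B + 3) * √d := by
          have := (abs_le.mp hx1).2
          linarith
        have e3 : 0 ≤ x + √p := by positivity
        rw [e1, abs_mul, abs_of_nonneg e3]
        calc |x - √p| * (x + √p) ≤ (B * (√d * s)) * ((B + 3) * √d) :=
              mul_le_mul (hx1.trans hE1) e2 e3 (by positivity)
          _ = (B * (B + 3)) * ((√d * √d) * s) := by ring
          _ = (B * (B + 3)) * (d * s) := by rw [hsd2]
      have h3 : |((d + 1) * p - d ^ 2) / (d : ℝ) ^ 2| ≤ 4 * s := by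
        have e0 : 0 ≤ ((d : ℝ) + 1) * p - d ^ 2 := aux4 hd0.le hdpR.le
        rw [abs_of_nonneg (div_nonneg e0 (by positivity)), div_le_iff₀ (by positivity)]
        have e1 : (1 : ℝ) ≤ d * s := by
          have := mul_le_mul_of_nonneg_left hs6 hd0.le
          rwa [mul_one_div_cancel hd0.ne'] at this
        have e2 : (p : ℝ) ≤ d + 2 * (d * s) := by
          have := mul_le_mul_of_nonneg_left hs8 hd0.le
          linarith
        exact aux3 hdR e2 e1 hs1
      rw [h1]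
      calc |(d + 1) / d ^ 2 * (x ^ 2 - p) + ((d + 1) * p - d ^ 2) / (d : ℝ) ^ 2|
          ≤ |(d + 1) / (d : ℝ) ^ 2 * (x ^ 2 - p)| + |((d + 1) * p - d ^ 2) / (d : ℝ) ^ 2| :=
            abs_add_le _ _
        _ ≤ 2 / d * ((B * (B + 3)) * (d * s)) + 4 * s := by
            apply add_le_add _ h3
            rw [abs_mul]
            apply mul_le_mul _ h2 (abs_nonneg _) (by positivity)
            rw [abs_of_nonneg (by positivity)]
            exact aux5 (by linarith)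
        _ = (2 * (B * (B + 3)) + 4) * s := by
            field_simp
        _ ≤ (2 * (B * (B + 3)) + 4 + 12) * s := by
            apply mul_le_mul_of_nonneg_right _ hs0.le
            linarith)
  refine ⟨p ^ 2 + p + 1 + d, x, w, B', h1, ?_, h2, h3, h4⟩
  push_cast at hN ⊢
  have e1 : (1 + (2 * (B * (B + 3)) + 4 + 12) * s) * (d : ℝ) ^ 2 =
      (1 + 11 * s) * (d : ℝ) ^ 2 + s * d ^ 2 + (2 * (B * (B + 3)) + 4) * s * d ^ 2 := by ring
  have e2 : 0 ≤ (2 * (B * (B + 3)) + 4) * s * (d : ℝ) ^ 2 := by positivity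
  have e3 : (d : ℝ) ≤ s * d ^ 2 := by
    have := mul_le_mul_of_nonneg_right hs6 (by positivity : (0 : ℝ) ≤ (d : ℝ) ^ 2)
    have e : 1 / (d : ℝ) * d ^ 2 = d := by field_simp
    linarith
  have e4 : (1 + 11 * s ^ 4) * (d : ℝ) ^ 2 ≤ (1 + 11 * s) * (d : ℝ) ^ 2 := by
    apply mul_le_mul_of_nonneg_right _ (by positivity)
    linarith
  rw [e1]
  linarith

/-- every dimension -/
theorem near_minimal : ∃ c C : ℝ, 0 < c ∧ 0 < C ∧ ∀ d : ℕ, 1 ≤ d →
    ∃ (N : ℕ) (x : Fin N → EuclideanSpace ℂ (Fin d)) (w : Fin N → ℝ) (B : Finset (Fin N)),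
      IsWeightedTwoDesign x w ∧ (N : ℝ) ≤ (1 + C * (d : ℝ) ^ (-c)) * (d : ℝ) ^ 2 ∧ B.card = d ∧
      (∀ i, |(d : ℝ) ^ 2 * w i - 1| ≤ C * (d : ℝ) ^ (-c)) ∧
      (∀ i j, i ≠ j → ¬ (i ∈ B ∧ j ∈ B) →
        |((d : ℝ) + 1) * ‖inner ℂ (x i) (x j)‖ ^ 2 - 1| ≤ C * (d : ℝ) ^ (-c)) := by
  obtain ⟨c, C, d₀, hc, hc1, hC, hd₀, h⟩ := large
  refine ⟨c, max C (8 * (d₀ : ℝ) ^ 3), hc, lt_max_of_lt_left hC, fun d hd => ?_⟩
  have hdR : (1 : ℝ) ≤ d := by exact_mod_cast hd
  have hd0 : (0 : ℝ) < d := by linarith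
  have hpos : 0 < (d : ℝ) ^ (-c) := Real.rpow_pos_of_pos hd0 _
  rcases le_or_gt d₀ d with hle | hlt
  · obtain ⟨N, x, w, B, h1, h2, h3, h4, h5⟩ := h d hle
    have hCC : C * (d : ℝ) ^ (-c) ≤ max C (8 * (d₀ : ℝ) ^ 3) * (d : ℝ) ^ (-c) :=
      mul_le_mul_of_nonneg_right (le_max_left _ _) hpos.le
    refine ⟨N, x, w, B, h1, h2.trans ?_, h3, fun i => (h4 i).trans hCC,
      fun i j hij hB => (h5 i j hij hB).trans hCC⟩
    apply mul_le_mul_of_nonneg_right _ (by positivity)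
    linarith
  · have hkey : 8 * (d : ℝ) ^ 2 ≤ max C (8 * (d₀ : ℝ) ^ 3) * (d : ℝ) ^ (-c) := by
      have hdd : (d : ℝ) ≤ d₀ := by exact_mod_cast hlt.le
      have e1 : 8 * (d : ℝ) ^ 3 * (d : ℝ) ^ (-c) ≤ max C (8 * (d₀ : ℝ) ^ 3) * (d : ℝ) ^ (-c) := by
        apply mul_le_mul_of_nonneg_right _ hpos.le
        refine le_trans ?_ (le_max_right _ _)
        exact mul_le_mul_of_nonneg_left (pow_le_pow_left₀ hd0.le hdd 3) (by norm_num)
      refine le_trans ?_ e1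
      have e2 : (d : ℝ) ^ (-(1 : ℝ)) ≤ (d : ℝ) ^ (-c) :=
        Real.rpow_le_rpow_of_exponent_le hdR (by linarith)
      calc 8 * (d : ℝ) ^ 2 = 8 * (d : ℝ) ^ 3 * (d : ℝ) ^ (-(1 : ℝ)) := by
            rw [Real.rpow_neg_one]
            field_simp
        _ ≤ _ := mul_le_mul_of_nonneg_left e2 (by positivity)
    obtain ⟨p, hp, hdp, hp2⟩ := Nat.exists_prime_lt_and_le_two_mul d (by omega)
    have : Fact p.Prime := ⟨hp⟩
    obtain ⟨v, hv1, hv2, hv3, hv4⟩ := design_frame p d (by omega) (by omega)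
      (max 1 (Real.log (2 * (2 * ((p : ℝ) ^ 2 + p + 1) + 1)))) (le_max_left _ _) (le_max_right _ _)
    have hd2 : (1 : ℝ) ≤ (d : ℝ) ^ 2 := one_le_pow₀ hdR
    have hK : d ^ 2 ≤ p ^ 2 + p + 1 := by
      have : d ^ 2 ≤ p ^ 2 := Nat.pow_le_pow_left hdp.le 2
      omega
    obtain ⟨x, w, B', h1, h2, h3, h4⟩ := assemble (n := p ^ 2 + p + 1) hd (by positivity) v
      hv1 hv3 hv4 (8 * (d : ℝ) ^ 2)
      (by
        rw [div_le_iff₀ hd0]
        nlinarith)
      (by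
        have hKR : (d : ℝ) ^ 2 ≤ ((p ^ 2 + p + 1 : ℕ) : ℝ) := by exact_mod_cast hK
        have hnn : (0 : ℝ) < ((p ^ 2 + p + 1 : ℕ) : ℝ) := by positivity
        set n : ℝ := ((p ^ 2 + p + 1 : ℕ) : ℝ) with hn
        have e1 : (d : ℝ) ^ 2 * ((d : ℝ) / (n * (d + 1))) ≤ 1 := by
          rw [← mul_div_assoc, div_le_one (by positivity)]
          have : (d : ℝ) ^ 2 * d ≤ n * d := mul_le_mul_of_nonneg_right hKR hd0.le
          nlinarith
        have e2 : 0 ≤ (d : ℝ) ^ 2 * ((d : ℝ) / (n * (d + 1))) := by positivity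
        rw [abs_le]
        constructor <;> linarith)
      (by
        intro i j _
        have h1 : ‖inner ℂ (v i) (v j)‖ ≤ 1 := by
          have := norm_inner_le_norm (𝕜 := ℂ) (v i) (v j)
          rwa [hv1, hv1, mul_one] at this
        have h2 : ‖inner ℂ (v i) (v j)‖ ^ 2 ≤ 1 := pow_le_one₀ (norm_nonneg _) h1
        have h3 : 0 ≤ ‖inner ℂ (v i) (v j)‖ ^ 2 := by positivity
        rw [abs_le]
        constructor <;> nlinarith)
    refine ⟨p ^ 2 + p + 1 + d, x, w, B', h1, ?_, h2, fun i => (h3 i).trans hkey,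
      fun i j hij hB => (h4 i j hij hB).trans hkey⟩
    have hpR : (p : ℝ) ≤ 2 * d := by exact_mod_cast hp2
    have hp0 : (0 : ℝ) ≤ p := Nat.cast_nonneg _
    push_cast
    have e1 : (p : ℝ) ^ 2 ≤ 4 * d ^ 2 := by nlinarith
    have e2 : (d : ℝ) ≤ d ^ 2 := by nlinarith
    nlinarith [mul_le_mul_of_nonneg_right hkey (by positivity : (0 : ℝ) ≤ (d : ℝ) ^ 2)]

end Pool.Agent.R114.SIC
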