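import Pool.Agent.H109R2.SICBase

/-!
# Systems of lines of a maximal equiangular tight frame with real or imaginary triple products
-/

set_option autoImplicit false

namespace Pool.Agent.R114.SIC

open Finset Matrix Pool.Agent.H109R2.SIC

variable {d : ℕ} {x : Fin (d ^ 2) → EuclideanSpace ℂ (Fin d)}

/-- the matrix `∑ b_j x_j x_jᵀ` -/
noncomputable def Mb (x : Fin (d ^ 2) → EuclideanSpace ℂ (Fin d)) (b : Fin (d ^ 2) → ℂ)
    (s t : Fin d) : ℂ := ∑ j, b j * (x j s * x j t)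

/-- the form -/
noncomputable def qf (x : Fin (d ^ 2) → EuclideanSpace ℂ (Fin d)) (b c : Fin (d ^ 2) → ℂ) : ℂ :=
  ∑ i, ∑ j, star (b i) * c j * (inner ℂ (x i) (x j)) ^ 2

/-- the transform -/
noncomputable def yb (x : Fin (d ^ 2) → EuclideanSpace ℂ (Fin d)) (b : Fin (d ^ 2) → ℂ)
    (k : Fin (d ^ 2)) : ℂ := ∑ j, b j * (inner ℂ (x k) (x j)) ^ 2

theorem inner_sq (u v : EuclideanSpace ℂ (Fin d)) :
    (inner ℂ u v : ℂ) ^ 2 = ∑ s, ∑ t, (star (u s) * star (u t)) * (v s * v t) := by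
  rw [inner_eq, sq, Finset.sum_mul_sum]
  refine Finset.sum_congr rfl fun s _ => Finset.sum_congr rfl fun t _ => ?_
  ring

theorem qf_eq_norm (b : Fin (d ^ 2) → ℂ) :
    qf x b b = ((∑ s, ∑ t, ‖Mb x b s t‖ ^ 2 : ℝ) : ℂ) := by
  have h1 : ∀ s t, ((‖Mb x b s t‖ ^ 2 : ℝ) : ℂ) =
      ∑ i, ∑ j, (star (b i) * b j) * ((star (x i s) * star (x i t)) * (x j s * x j t)) := by
    intro s t
    rw [Complex.ofReal_pow, ← Complex.conj_mul', Mb, map_sum, Finset.sum_mul_sum]
    refine Finset.sum_congr rfl fun i _ => Finset.sum_congr rfl fun j _ => ?_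
    simp only [map_mul]
    change star (b i) * (star (x i s) * star (x i t)) * _ = _
    ring
  push_cast
  have h2 : ∀ s t, ((‖Mb x b s t‖ : ℂ)) ^ 2 =
      ∑ i, ∑ j, (star (b i) * b j) * ((star (x i s) * star (x i t)) * (x j s * x j t)) := by
    intro s t
    rw [← h1]; push_cast; rfl
  simp only [h2]
  unfold qf
  simp only [inner_sq]
  calc ∑ i, ∑ j, star (b i) * b j * ∑ s, ∑ t, (star (x i s) * star (x i t)) * (x j s * x j t)
      = ∑ i, ∑ j, ∑ s, ∑ t, (star (b i) * b j) *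
          ((star (x i s) * star (x i t)) * (x j s * x j t)) := by
        simp only [Finset.mul_sum]
    _ = ∑ s, ∑ t, ∑ i, ∑ j, (star (b i) * b j) *
          ((star (x i s) * star (x i t)) * (x j s * x j t)) := by
        rw [Finset.sum_congr rfl (fun i _ => Finset.sum_comm), Finset.sum_comm]
        refine Finset.sum_congr rfl fun s _ => ?_
        rw [Finset.sum_congr rfl (fun i _ => Finset.sum_comm), Finset.sum_comm]

theorem sum_inner2 (hx : IsMaxETF d x) (i j : Fin (d ^ 2)) :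
    ∑ k, (inner ℂ (x i) (x k)) ^ 2 * (inner ℂ (x k) (x j)) ^ 2
      = (2 * d / ((d : ℂ) + 1)) * inner ℂ (x i) (x j) ^ 2 := by
  have key : ∀ k, trace (P x k * vecMulVec (x j).ofLp (star (x i).ofLp))
      = inner ℂ (x i) (x k) * inner ℂ (x k) (x j) := by
    intro k
    rw [trace_P_mul, inner_eq, inner_eq, Finset.sum_mul_sum, Finset.sum_comm]
    refine Finset.sum_congr rfl fun s _ => Finset.sum_congr rfl fun t _ => ?_
    simp only [vecMulVec_apply, Pi.star_apply]
    ring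
  have h := design2 hx (vecMulVec (x j).ofLp (star (x i).ofLp))
    (vecMulVec (x j).ofLp (star (x i).ofLp))
  simp only [key] at h
  have h2 : trace (vecMulVec (x j).ofLp (star (x i).ofLp)) = inner ℂ (x i) (x j) := by
    rw [inner_eq, trace]
    refine Finset.sum_congr rfl fun s _ => ?_
    simp only [diag_apply, vecMulVec_apply, Pi.star_apply]
    ring
  have h3 : trace (vecMulVec (x j).ofLp (star (x i).ofLp) *
      vecMulVec (x j).ofLp (star (x i).ofLp)) = inner ℂ (x i) (x j) ^ 2 := by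
    rw [inner_sq, trace]
    simp only [diag_apply, mul_apply, vecMulVec_apply, Pi.star_apply]
    refine Finset.sum_congr rfl fun s _ => Finset.sum_congr rfl fun t _ => ?_
    ring
  rw [h2, h3] at h
  rw [← Finset.sum_congr rfl fun k _ => (show (inner ℂ (x i) (x k) * inner ℂ (x k) (x j)) *
    (inner ℂ (x i) (x k) * inner ℂ (x k) (x j)) = (inner ℂ (x i) (x k)) ^ 2 *
    (inner ℂ (x k) (x j)) ^ 2 by ring), h]
  ring

theorem star_inner (u v : EuclideanSpace ℂ (Fin d)) : star (inner ℂ u v : ℂ) = inner ℂ v u :=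
  inner_conj_symm _ _

theorem sum_yb (hx : IsMaxETF d x) (b c : Fin (d ^ 2) → ℂ) :
    ∑ k, star (yb x b k) * yb x c k = (2 * d / ((d : ℂ) + 1)) * qf x b c := by
  have h1 : ∀ k, star (yb x b k) * yb x c k = ∑ i, ∑ j, (star (b i) * c j) *
      ((inner ℂ (x i) (x k)) ^ 2 * (inner ℂ (x k) (x j)) ^ 2) := by
    intro k
    unfold yb
    rw [star_sum, Finset.sum_mul_sum]
    refine Finset.sum_congr rfl fun i _ => Finset.sum_congr rfl fun j _ => ?_
    rw [star_mul', star_pow, star_inner]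
    ring
  simp only [h1]
  rw [Finset.sum_comm]
  unfold qf
  rw [Finset.mul_sum]
  refine Finset.sum_congr rfl fun i _ => ?_
  rw [Finset.sum_comm, Finset.mul_sum]
  refine Finset.sum_congr rfl fun j _ => ?_
  rw [← Finset.mul_sum, sum_inner2 hx]
  ring

/-- the polar identity -/
theorem sum_defect (hx : IsMaxETF d x) (b c : Fin (d ^ 2) → ℂ) :
    ∑ k, star (yb x b k - (2 * d / ((d : ℂ) + 1)) * b k) *
        (yb x c k - (2 * d / ((d : ℂ) + 1)) * c k) =
      (2 * d / ((d : ℂ) + 1)) * ((2 * d / ((d : ℂ) + 1)) * ∑ k, star (b k) * c k - qf x b c) := by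
  have hl : star (2 * d / ((d : ℂ) + 1)) = 2 * d / ((d : ℂ) + 1) := by simp
  have h1 : ∀ k, star (yb x b k - (2 * d / ((d : ℂ) + 1)) * b k) *
        (yb x c k - (2 * d / ((d : ℂ) + 1)) * c k) =
      star (yb x b k) * yb x c k - (2 * d / ((d : ℂ) + 1)) * (star (yb x b k) * c k)
      - (2 * d / ((d : ℂ) + 1)) * (star (b k) * yb x c k)
      + (2 * d / ((d : ℂ) + 1)) ^ 2 * (star (b k) * c k) := by
    intro k
    rw [star_sub, star_mul', hl]
    ring
  simp only [h1, Finset.sum_add_distrib, Finset.sum_sub_distrib, ← Finset.mul_sum]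
  have h2 : ∑ k, star (b k) * yb x c k = qf x b c := by
    unfold yb qf
    refine Finset.sum_congr rfl fun i _ => ?_
    rw [Finset.mul_sum]
    refine Finset.sum_congr rfl fun j _ => ?_
    ring
  have h3 : ∑ k, star (yb x b k) * c k = qf x b c := by
    unfold yb qf
    have : ∀ k, star (∑ j, b j * (inner ℂ (x k) (x j)) ^ 2) * c k =
        ∑ j, star (b j) * c k * (inner ℂ (x j) (x k)) ^ 2 := by
      intro k
      rw [star_sum, Finset.sum_mul]
      refine Finset.sum_congr rfl fun j _ => ?_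
      rw [star_mul', star_pow, star_inner]
      ring
    simp only [this]
    rw [Finset.sum_comm]
  rw [sum_yb hx, h2, h3]
  ring

/-- Cauchy–Schwarz for the defect form -/
theorem defect_cs (hx : IsMaxETF d x) (b c : Fin (d ^ 2) → ℂ) (hbc : ∑ k, star (b k) * c k = 0)
    (β γ : ℝ) (hβ : (2 * d / ((d : ℂ) + 1)) * ∑ k, star (b k) * b k - qf x b b = β)
    (hγ : (2 * d / ((d : ℂ) + 1)) * ∑ k, star (c k) * c k - qf x c c = γ) (hd : 0 < d) :
    ‖qf x b c‖ ^ 2 ≤ β * γ := by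
  set l : ℝ := 2 * d / ((d : ℝ) + 1) with hl
  have hl0 : 0 < l := by positivity
  have hlC : (2 * d / ((d : ℂ) + 1)) = (l : ℂ) := by rw [hl]; push_cast; rfl
  set f : Fin (d ^ 2) → ℂ := fun k => yb x b k - (l : ℂ) * b k with hf
  set g : Fin (d ^ 2) → ℂ := fun k => yb x c k - (l : ℂ) * c k with hg
  have h1 := sum_defect hx b c
  have h2 := sum_defect hx b b
  have h3 := sum_defect hx c c
  rw [hlC] at h1 h2 h3 hβ hγ
  rw [hbc, mul_zero, zero_sub] at h1
  rw [hβ] at h2
  rw [hγ] at h3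
  have e1 : ∑ k, ‖f k‖ ^ 2 = l * β := by
    have : ((∑ k, ‖f k‖ ^ 2 : ℝ) : ℂ) = ((l * β : ℝ) : ℂ) := by
      push_cast
      rw [← h2]
      refine Finset.sum_congr rfl fun k _ => ?_
      rw [← Complex.conj_mul']; rfl
    exact_mod_cast this
  have e2 : ∑ k, ‖g k‖ ^ 2 = l * γ := by
    have : ((∑ k, ‖g k‖ ^ 2 : ℝ) : ℂ) = ((l * γ : ℝ) : ℂ) := by
      push_cast
      rw [← h3]
      refine Finset.sum_congr rfl fun k _ => ?_
      rw [← Complex.conj_mul']; rfl
    exact_mod_cast this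
  have e3 : l * ‖qf x b c‖ ≤ ∑ k, ‖f k‖ * ‖g k‖ := by
    have : l * ‖qf x b c‖ = ‖∑ k, star (f k) * g k‖ := by
      have h4 : ∑ k, star (f k) * g k = (l : ℂ) * -qf x b c := h1
      rw [h4, norm_mul, norm_neg, Complex.norm_real, Real.norm_of_nonneg hl0.le]
    rw [this]
    refine (norm_sum_le _ _).trans (le_of_eq ?_)
    refine Finset.sum_congr rfl fun k _ => ?_
    rw [norm_mul, norm_star]
  have e4 := Finset.sum_mul_sq_le_sq_mul_sq Finset.univ (fun k => ‖f k‖) (fun k => ‖g k‖)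
  rw [e1, e2] at e4
  have e5 : (l * ‖qf x b c‖) ^ 2 ≤ (l * β) * (l * γ) :=
    (pow_le_pow_left₀ (by positivity) e3 2).trans e4
  have e6 : l ^ 2 * (‖qf x b c‖ ^ 2) ≤ l ^ 2 * (β * γ) := by nlinarith
  exact le_of_mul_le_mul_left e6 (by positivity)

/-- the coefficients attached to phases on a set -/
noncomputable def bc (S : Finset (Fin (d ^ 2))) (c : Fin (d ^ 2) → ℂ) (i : Fin (d ^ 2)) : ℂ :=
  if i ∈ S then c i ^ 2 else 0

theorem inner_smul_smul (u v : EuclideanSpace ℂ (Fin d)) (a b : ℂ) :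
    (inner ℂ (a • u) (b • v) : ℂ) = star a * b * inner ℂ u v := by
  rw [inner_smul_left, inner_smul_right]
  change star a * (b * _) = _
  ring

theorem qf_bc (S T : Finset (Fin (d ^ 2))) (c c' : Fin (d ^ 2) → ℂ) :
    qf x (bc S c) (bc T c') = ∑ i ∈ S, ∑ j ∈ T, inner ℂ (c i • x i) (c' j • x j) ^ 2 := by
  unfold qf bc
  rw [← Finset.sum_filter_add_sum_filter_not univ (· ∈ S)]
  have h0 : ∑ i ∈ univ.filter (fun i => ¬ i ∈ S), ∑ j, star (if i ∈ S then c i ^ 2 else 0) *
      (if j ∈ T then c' j ^ 2 else 0) * (inner ℂ (x i) (x j)) ^ 2 = 0 := by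
    refine Finset.sum_eq_zero fun i hi => ?_
    rw [Finset.mem_filter] at hi
    simp [hi.2]
  rw [h0, add_zero, Finset.filter_mem_eq_inter, Finset.univ_inter]
  refine Finset.sum_congr rfl fun i hi => ?_
  rw [← Finset.sum_filter_add_sum_filter_not univ (· ∈ T)]
  have h1 : ∑ j ∈ univ.filter (fun j => ¬ j ∈ T), star (if i ∈ S then c i ^ 2 else 0) *
      (if j ∈ T then c' j ^ 2 else 0) * (inner ℂ (x i) (x j)) ^ 2 = 0 := by
    refine Finset.sum_eq_zero fun j hj => ?_
    rw [Finset.mem_filter] at hj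
    simp [hj.2]
  rw [h1, add_zero, Finset.filter_mem_eq_inter, Finset.univ_inter]
  refine Finset.sum_congr rfl fun j hj => ?_
  rw [if_pos hi, if_pos hj, inner_smul_smul, star_pow]
  ring

theorem norm_bc (S : Finset (Fin (d ^ 2))) (c : Fin (d ^ 2) → ℂ) (hc : ∀ i ∈ S, ‖c i‖ = 1) :
    ∑ k, star (bc S c k) * bc S c k = (S.card : ℂ) := by
  unfold bc
  have : ∀ k, star (if k ∈ S then c k ^ 2 else 0) * (if k ∈ S then c k ^ 2 else 0) =
      if k ∈ S then (1 : ℂ) else 0 := by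
    intro k
    split_ifs with hk
    · have h1 : star (c k) * c k = 1 := by
        have := Complex.conj_mul' (c k)
        change (starRingEnd ℂ) (c k) * c k = 1
        rw [this, hc k hk]
        norm_num
      rw [star_pow]
      calc star (c k) ^ 2 * c k ^ 2 = (star (c k) * c k) ^ 2 := by ring
        _ = 1 := by rw [h1]; norm_num
    · simp
  simp only [this]
  rw [Finset.sum_ite_mem, Finset.univ_inter]
  simp

theorem cross_bc {S T : Finset (Fin (d ^ 2))} (hST : Disjoint S T) (c c' : Fin (d ^ 2) → ℂ) :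
    ∑ k, star (bc S c k) * bc T c' k = 0 := by
  refine Finset.sum_eq_zero fun k _ => ?_
  unfold bc
  by_cases h1 : k ∈ S
  · have h2 : k ∉ T := Finset.disjoint_left.mp hST h1
    simp [h2]
  · simp [h1]

theorem inner_self_one (hx : IsMaxETF d x) (i : Fin (d ^ 2)) : (inner ℂ (x i) (x i) : ℂ) = 1 := by
  have := inner_mul_inner hx i i
  rw [if_pos rfl] at this
  rw [inner_self_eq_norm_sq_to_K, hx.1]; simp

/-- the modulus of a scaled inner product -/
theorem scaled_norm (hx : IsMaxETF d x) {c : Fin (d ^ 2) → ℂ} {i j : Fin (d ^ 2)}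
    (hi : ‖c i‖ = 1) (hj : ‖c j‖ = 1) (hij : i ≠ j) :
    ‖(inner ℂ (c i • x i) (c j • x j) : ℂ)‖ ^ 2 = 1 / ((d : ℝ) + 1) := by
  rw [inner_smul_smul, norm_mul, norm_mul, norm_star, hi, hj, hx.2 i j hij, one_mul, one_mul,
    div_pow, one_pow, Real.sq_sqrt (by positivity)]

theorem scaled_self (hx : IsMaxETF d x) {c : Fin (d ^ 2) → ℂ} {i : Fin (d ^ 2)}
    (hi : ‖c i‖ = 1) : (inner ℂ (c i • x i) (c i • x i) : ℂ) = 1 := by
  rw [inner_smul_smul, inner_self_one hx]
  have := Complex.conj_mul' (c i)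
  change (starRingEnd ℂ) (c i) * c i * 1 = 1
  rw [this, hi]
  norm_num

theorem double_sum (S : Finset (Fin (d ^ 2))) (F : Fin (d ^ 2) → Fin (d ^ 2) → ℂ) (e : ℂ)
    (h1 : ∀ i ∈ S, F i i = 1) (h2 : ∀ i ∈ S, ∀ j ∈ S, i ≠ j → F i j = e) :
    ∑ i ∈ S, ∑ j ∈ S, F i j = S.card * (1 + ((S.card : ℂ) - 1) * e) := by
  have h3 : ∀ i ∈ S, ∑ j ∈ S, F i j = 1 + ((S.card : ℂ) - 1) * e := by
    intro i hi
    rw [← Finset.add_sum_erase S _ hi, h1 i hi]
    rw [Finset.sum_congr rfl (g := fun _ => e) (fun j hj => h2 i hi j (Finset.mem_of_mem_erase hj)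
      (Finset.ne_of_mem_erase hj).symm)]
    rw [Finset.sum_const, nsmul_eq_mul, Finset.card_erase_of_mem hi,
      Nat.cast_sub (Finset.card_pos.mpr ⟨i, hi⟩)]
    push_cast
    ring
  rw [Finset.sum_congr rfl h3, Finset.sum_const, nsmul_eq_mul]

/-- phases making the inner products of the lines of `S` real -/
def RealPhases (x : Fin (d ^ 2) → EuclideanSpace ℂ (Fin d)) (S : Finset (Fin (d ^ 2)))
    (c : Fin (d ^ 2) → ℂ) : Prop :=
  (∀ i ∈ S, ‖c i‖ = 1) ∧ ∀ i ∈ S, ∀ j ∈ S, (inner ℂ (c i • x i) (c j • x j) : ℂ).im = 0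

theorem qf_real (hx : IsMaxETF d x) {S : Finset (Fin (d ^ 2))} {c : Fin (d ^ 2) → ℂ}
    (hc : RealPhases x S c) :
    qf x (bc S c) (bc S c) = S.card * (1 + ((S.card : ℂ) - 1) * (1 / ((d : ℂ) + 1))) := by
  rw [qf_bc]
  apply double_sum
  · intro i hi
    rw [scaled_self hx (hc.1 i hi)]; norm_num
  · intro i hi j hj hij
    have h1 := scaled_norm hx (hc.1 i hi) (hc.1 j hj) hij
    have h2 := hc.2 i hi j hj
    set z : ℂ := inner ℂ (c i • x i) (c j • x j) with hz
    have h3 : z = (z.re : ℂ) := Complex.ext rfl (by simpa using h2)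
    have h4 : ‖z‖ ^ 2 = z.re ^ 2 := by
      rw [← Complex.normSq_eq_norm_sq, Complex.normSq_apply, h2]; ring
    rw [h3, ← Complex.ofReal_pow, ← h4, h1]
    push_cast
    rfl

theorem defect_real (hx : IsMaxETF d x) {S : Finset (Fin (d ^ 2))} {c : Fin (d ^ 2) → ℂ}
    (hc : RealPhases x S c) :
    (2 * d / ((d : ℂ) + 1)) * ∑ k, star (bc S c k) * bc S c k - qf x (bc S c) (bc S c) =
      (((S.card : ℝ) * ((d : ℝ) - S.card) / ((d : ℝ) + 1) : ℝ) : ℂ) := by
  rw [norm_bc S c hc.1, qf_real hx hc]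
  have := d1_ne (d := d)
  push_cast
  field_simp
  ring

theorem defect_nonneg (hx : IsMaxETF d x) (hd : 0 < d) (b : Fin (d ^ 2) → ℂ) (β : ℝ)
    (hβ : (2 * d / ((d : ℂ) + 1)) * ∑ k, star (b k) * b k - qf x b b = β) :
    0 ≤ β ∧ (β = 0 → ∀ k, yb x b k = (2 * d / ((d : ℂ) + 1)) * b k) := by
  have h2 := sum_defect hx b b
  rw [hβ] at h2
  set l : ℝ := 2 * d / ((d : ℝ) + 1) with hl
  have hl0 : 0 < l := by positivity
  have hlC : (2 * d / ((d : ℂ) + 1)) = (l : ℂ) := by rw [hl]; push_cast; rfl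
  rw [hlC] at h2 ⊢
  have e1 : ∑ k, ‖yb x b k - (l : ℂ) * b k‖ ^ 2 = l * β := by
    have : ((∑ k, ‖yb x b k - (l : ℂ) * b k‖ ^ 2 : ℝ) : ℂ) = ((l * β : ℝ) : ℂ) := by
      push_cast
      rw [← h2]
      refine Finset.sum_congr rfl fun k _ => ?_
      rw [← Complex.conj_mul']; rfl
    exact_mod_cast this
  refine ⟨?_, fun h0 k => ?_⟩
  · have : 0 ≤ l * β := by rw [← e1]; positivity
    exact nonneg_of_mul_nonneg_right this hl0
  · rw [h0, mul_zero] at e1
    have h3 := (Finset.sum_eq_zero_iff_of_nonneg (fun k _ => by positivity)).mp e1 k (mem_univ k)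
    have h4 : ‖yb x b k - (l : ℂ) * b k‖ = 0 := by
      exact pow_eq_zero_iff (two_ne_zero) |>.mp h3
    exact sub_eq_zero.mp (norm_eq_zero.mp h4)

theorem real_card_le (hx : IsMaxETF d x) (hd : 0 < d) {S : Finset (Fin (d ^ 2))}
    {c : Fin (d ^ 2) → ℂ} (hc : RealPhases x S c) : S.card ≤ d := by
  by_contra hlt
  push Not at hlt
  have h1 := (defect_nonneg hx hd _ _ (defect_real hx hc)).1
  have h2 : (d : ℝ) < S.card := by exact_mod_cast hlt
  have h3 : (0 : ℝ) < S.card := lt_of_le_of_lt (Nat.cast_nonneg d) h2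
  have h4 : (S.card : ℝ) * ((d : ℝ) - S.card) / ((d : ℝ) + 1) < 0 := by
    apply div_neg_of_neg_of_pos _ (by positivity)
    nlinarith
  linarith

theorem real_eq (hx : IsMaxETF d x) (hd : 0 < d) {S : Finset (Fin (d ^ 2))}
    {c : Fin (d ^ 2) → ℂ} (hc : RealPhases x S c) (hS : S.card = d) (i : Fin (d ^ 2))
    (hi : i ∉ S) : ∑ j ∈ S, (inner ℂ (x i) (c j • x j) : ℂ) ^ 2 = 0 := by
  have h1 := (defect_nonneg hx hd _ _ (defect_real hx hc)).2 (by rw [hS]; simp) i
  have h2 : bc S c i = 0 := by unfold bc; rw [if_neg hi]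
  rw [h2, mul_zero] at h1
  rw [← h1]
  unfold yb bc
  rw [← Finset.sum_filter_add_sum_filter_not univ (· ∈ S)]
  have h0 : ∑ j ∈ univ.filter (fun j => ¬ j ∈ S), (if j ∈ S then c j ^ 2 else 0) *
      (inner ℂ (x i) (x j)) ^ 2 = 0 := by
    refine Finset.sum_eq_zero fun j hj => ?_
    rw [Finset.mem_filter] at hj
    simp [hj.2]
  rw [h0, add_zero, Finset.filter_mem_eq_inter, Finset.univ_inter]
  refine Finset.sum_congr rfl fun j hj => ?_
  rw [if_pos hj, inner_smul_right]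
  ring

theorem real_cross (hx : IsMaxETF d x) (hd : 0 < d) {S T : Finset (Fin (d ^ 2))}
    {c c' : Fin (d ^ 2) → ℂ} (hc : RealPhases x S c) (hc' : RealPhases x T c')
    (hST : Disjoint S T) :
    ‖∑ i ∈ S, ∑ j ∈ T, (inner ℂ (c i • x i) (c' j • x j) : ℂ) ^ 2‖ ^ 2 ≤
      ((S.card : ℝ) * ((d : ℝ) - S.card) / ((d : ℝ) + 1)) *
        ((T.card : ℝ) * ((d : ℝ) - T.card) / ((d : ℝ) + 1)) := by
  rw [← qf_bc]
  exact defect_cs hx _ _ (cross_bc hST c c') _ _ (defect_real hx hc) (defect_real hx hc') hd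

/-- phases making the inner products of different lines of `S` purely imaginary -/
def ImagPhases (x : Fin (d ^ 2) → EuclideanSpace ℂ (Fin d)) (S : Finset (Fin (d ^ 2)))
    (c : Fin (d ^ 2) → ℂ) : Prop :=
  (∀ i ∈ S, ‖c i‖ = 1) ∧ ∀ i ∈ S, ∀ j ∈ S, i ≠ j →
    (inner ℂ (c i • x i) (c j • x j) : ℂ).re = 0

theorem qf_imag (hx : IsMaxETF d x) {S : Finset (Fin (d ^ 2))} {c : Fin (d ^ 2) → ℂ}
    (hc : ImagPhases x S c) :
    qf x (bc S c) (bc S c) = S.card * (1 + ((S.card : ℂ) - 1) * (-(1 / ((d : ℂ) + 1)))) := by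
  rw [qf_bc]
  apply double_sum
  · intro i hi
    rw [scaled_self hx (hc.1 i hi)]; norm_num
  · intro i hi j hj hij
    have h1 := scaled_norm hx (hc.1 i hi) (hc.1 j hj) hij
    have h2 := hc.2 i hi j hj hij
    set z : ℂ := inner ℂ (c i • x i) (c j • x j) with hz
    have h3 : z = (z.im : ℂ) * Complex.I := Complex.ext (by simp [h2]) (by simp)
    have h4 : ‖z‖ ^ 2 = z.im ^ 2 := by
      rw [← Complex.normSq_eq_norm_sq, Complex.normSq_apply, h2]; ring
    rw [h3, mul_pow, Complex.I_sq, ← Complex.ofReal_pow, ← h4, h1]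
    push_cast
    ring

theorem imag_card_le (hx : IsMaxETF d x) {S : Finset (Fin (d ^ 2))}
    {c : Fin (d ^ 2) → ℂ} (hc : ImagPhases x S c) : S.card ≤ d + 2 := by
  by_contra hlt
  push Not at hlt
  have h1 := qf_imag hx hc
  rw [qf_eq_norm] at h1
  have h2 : (∑ s, ∑ t, ‖Mb x (bc S c) s t‖ ^ 2 : ℝ) =
      S.card * (1 + ((S.card : ℝ) - 1) * (-(1 / ((d : ℝ) + 1)))) := by
    apply Complex.ofReal_injective
    rw [h1]; push_cast; ring
  have h3 : (d : ℝ) + 2 < S.card := by exact_mod_cast hlt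
  have h4 : 0 ≤ (∑ s, ∑ t, ‖Mb x (bc S c) s t‖ ^ 2 : ℝ) := by positivity
  rw [h2] at h4
  have h5 : (S.card : ℝ) * (1 + ((S.card : ℝ) - 1) * (-(1 / ((d : ℝ) + 1)))) =
      S.card * (((d : ℝ) + 2) - S.card) / (d + 1) := by
    have : (d : ℝ) + 1 ≠ 0 := by positivity
    field_simp
    ring
  rw [h5] at h4
  have h6 : (S.card : ℝ) * (((d : ℝ) + 2) - S.card) / (d + 1) < 0 := by
    apply div_neg_of_neg_of_pos _ (by positivity)
    nlinarith [(Nat.cast_nonneg d : (0 : ℝ) ≤ d)]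
  linarith

theorem imag_vanish (hx : IsMaxETF d x) {S : Finset (Fin (d ^ 2))}
    {c : Fin (d ^ 2) → ℂ} (hc : ImagPhases x S c) (hS : S.card = d + 2)
    (u w : EuclideanSpace ℂ (Fin d)) :
    ∑ j ∈ S, (inner ℂ u (c j • x j) : ℂ) * inner ℂ w (c j • x j) = 0 := by
  have h1 := qf_imag hx hc
  rw [qf_eq_norm, hS] at h1
  have h2 : (∑ s, ∑ t, ‖Mb x (bc S c) s t‖ ^ 2 : ℝ) = 0 := by
    apply Complex.ofReal_injective
    rw [h1]
    have := d1_ne (d := d)
    push_cast
    field_simp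
    ring
  have h3 : ∀ s t, Mb x (bc S c) s t = 0 := by
    intro s t
    have h4 := (Finset.sum_eq_zero_iff_of_nonneg (fun s _ => by positivity)).mp h2 s (mem_univ s)
    have h5 := (Finset.sum_eq_zero_iff_of_nonneg (fun s _ => by positivity)).mp h4 t (mem_univ t)
    exact norm_eq_zero.mp ((pow_eq_zero_iff two_ne_zero).mp h5)
  have h6 : ∑ j, bc S c j * (inner ℂ u (x j) * inner ℂ w (x j)) =
      ∑ s, ∑ t, (star (u s) * star (w t)) * Mb x (bc S c) s t := by
    have h7 : ∀ j, bc S c j * (inner ℂ u (x j) * inner ℂ w (x j)) =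
        ∑ s, ∑ t, (star (u s) * star (w t)) * (bc S c j * (x j s * x j t)) := by
      intro j
      rw [inner_eq, inner_eq, Finset.sum_mul_sum, Finset.mul_sum]
      refine Finset.sum_congr rfl fun s _ => ?_
      rw [Finset.mul_sum]
      refine Finset.sum_congr rfl fun t _ => ?_
      ring
    simp only [h7]
    rw [Finset.sum_comm]
    refine Finset.sum_congr rfl fun s _ => ?_
    rw [Finset.sum_comm]
    refine Finset.sum_congr rfl fun t _ => ?_
    rw [Mb, Finset.mul_sum]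
  simp only [h3, mul_zero, Finset.sum_const_zero] at h6
  rw [← h6]
  unfold bc
  rw [← Finset.sum_filter_add_sum_filter_not univ (· ∈ S)]
  have h0 : ∑ j ∈ univ.filter (fun j => ¬ j ∈ S), (if j ∈ S then c j ^ 2 else 0) *
      (inner ℂ u (x j) * inner ℂ w (x j)) = 0 := by
    refine Finset.sum_eq_zero fun j hj => ?_
    rw [Finset.mem_filter] at hj
    simp [hj.2]
  rw [h0, add_zero, Finset.filter_mem_eq_inter, Finset.univ_inter]
  refine Finset.sum_congr rfl fun j hj => ?_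
  rw [if_pos hj, inner_smul_right, inner_smul_right]
  ring

theorem four_dvd_aux (ε η o p q : ℤ) (hε : ε = 1 ∨ ε = -1) (hη : η = 1 ∨ η = -1)
    (ho : o = 1 ∨ o = -1) (hp : p = 1 ∨ p = -1) (hq : q = 1 ∨ q = -1) :
    4 ∣ (o + ε * p) * (o + η * q) := by
  rcases hε with rfl | rfl <;> rcases hη with rfl | rfl <;> rcases ho with rfl | rfl <;>
    rcases hp with rfl | rfl <;> rcases hq with rfl | rfl <;> norm_num

theorem imag_four_dvd (hx : IsMaxETF d x) {S : Finset (Fin (d ^ 2))}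
    {c : Fin (d ^ 2) → ℂ} (hc : ImagPhases x S c) (hS : S.card = d + 2) : 4 ∣ d + 2 := by
  classical
  have hd : 2 ≤ d := by
    have h1 : S.card ≤ d ^ 2 := by
      have := Finset.card_le_univ S
      rwa [Fintype.card_fin] at this
    rw [hS] at h1
    by_contra hlt
    push Not at hlt
    interval_cases d <;> omega
  set s : ℝ := Real.sqrt ((d : ℝ) + 1) with hs
  have hs2 : s ^ 2 = (d : ℝ) + 1 := Real.sq_sqrt (by positivity)
  have hspos : 0 < s := Real.sqrt_pos.mpr (by positivity)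
  let z : Fin (d ^ 2) → Fin (d ^ 2) → ℂ := fun i j => inner ℂ (c i • x i) (c j • x j)
  have hz0 : ∀ i ∈ S, ∀ j ∈ S, i ≠ j → (z i j).re = 0 := fun i hi j hj hij => hc.2 i hi j hj hij
  have hz1 : ∀ i ∈ S, ∀ j ∈ S, i ≠ j → z i j = ((z i j).im : ℂ) * Complex.I := by
    intro i hi j hj hij
    exact Complex.ext (by rw [hz0 i hi j hj hij]; simp) (by simp)
  have hz2 : ∀ i ∈ S, ∀ j ∈ S, i ≠ j → (s * (z i j).im) ^ 2 = 1 := by
    intro i hi j hj hij
    have h1 := scaled_norm hx (hc.1 i hi) (hc.1 j hj) hij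
    have h4 : ‖z i j‖ ^ 2 = (z i j).im ^ 2 := by
      rw [← Complex.normSq_eq_norm_sq, Complex.normSq_apply, hz0 i hi j hj hij]; ring
    rw [mul_pow, hs2, ← h4]
    change ((d : ℝ) + 1) * ‖(inner ℂ (c i • x i) (c j • x j) : ℂ)‖ ^ 2 = 1
    rw [h1]
    have : (d : ℝ) + 1 ≠ 0 := by positivity
    field_simp
  have hz3 : ∀ i j, z j i = star (z i j) := fun i j => (star_inner _ _).symm
  have hz4 : ∀ i j, (z j i).im = -(z i j).im := by
    intro i j
    rw [hz3 i j]; simp
  let B : Fin (d ^ 2) → Fin (d ^ 2) → ℤ := fun i j => if 0 < (z i j).im then 1 else -1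
  have hB1 : ∀ i j, B i j = 1 ∨ B i j = -1 := by
    intro i j
    by_cases h : 0 < (z i j).im
    · left; simp [B, h]
    · right; simp [B, h]
  have hB2 : ∀ i ∈ S, ∀ j ∈ S, i ≠ j → ((B i j : ℤ) : ℝ) = s * (z i j).im := by
    intro i hi j hj hij
    have h1 := hz2 i hi j hj hij
    rcases sq_eq_one_iff.mp h1 with h | h
    · have h2 : 0 < (z i j).im := by
        by_contra hn
        push Not at hn
        nlinarith
      simp only [B, if_pos h2]
      rw [h]; norm_num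
    · have h2 : ¬ 0 < (z i j).im := by
        intro hn
        nlinarith [mul_pos hspos hn]
      simp only [B, if_neg h2]
      rw [h]; norm_num
  have hB3 : ∀ i ∈ S, ∀ j ∈ S, i ≠ j → B j i = -B i j := by
    intro i hi j hj hij
    have h1 := hB2 i hi j hj hij
    have h2 := hB2 j hj i hi hij.symm
    rw [hz4 i j] at h2
    have : ((B j i : ℤ) : ℝ) = ((-B i j : ℤ) : ℝ) := by
      push_cast
      rw [h2, h1]; ring
    exact_mod_cast this
  have hB4 : ∀ i j, B i j * B i j = 1 := by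
    intro i j
    rcases hB1 i j with h | h <;> rw [h] <;> norm_num
  -- orthogonality of the rows
  have horth : ∀ a ∈ S, ∀ b ∈ S, a ≠ b → ∑ j ∈ (S.erase a).erase b, B a j * B b j = 0 := by
    intro a ha b hb hab
    have h1 := imag_vanish hx hc hS (c a • x a) (c b • x b)
    have hbS : b ∈ S.erase a := Finset.mem_erase.mpr ⟨hab.symm, hb⟩
    rw [← Finset.add_sum_erase S _ ha, ← Finset.add_sum_erase _ _ hbS,
      scaled_self hx (hc.1 a ha), scaled_self hx (hc.1 b hb)] at h1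
    have h2 : (1 : ℂ) * inner ℂ (c b • x b) (c a • x a) = z b a := one_mul _
    have h3 : (inner ℂ (c a • x a) (c b • x b) : ℂ) * 1 = z a b := mul_one _
    rw [h2, h3, ← add_assoc] at h1
    have h4 : z b a + z a b = 0 := by
      rw [hz1 a ha b hb hab, hz1 b hb a ha hab.symm, hz4 a b]
      push_cast
      ring
    rw [h4, zero_add] at h1
    have h5 : ((∑ j ∈ (S.erase a).erase b, B a j * B b j : ℤ) : ℂ) =
        -(s : ℂ) ^ 2 * ∑ j ∈ (S.erase a).erase b,
          (inner ℂ (c a • x a) (c j • x j) : ℂ) * inner ℂ (c b • x b) (c j • x j) := by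
      push_cast
      rw [Finset.mul_sum]
      refine Finset.sum_congr rfl fun j hj => ?_
      rw [Finset.mem_erase, Finset.mem_erase] at hj
      have e1 : ((B a j : ℤ) : ℂ) = s * (z a j).im := by
        have := hB2 a ha j hj.2.2 hj.2.1.symm
        exact_mod_cast congrArg (fun r : ℝ => (r : ℂ)) this
      have e2 : ((B b j : ℤ) : ℂ) = s * (z b j).im := by
        have := hB2 b hb j hj.2.2 hj.1.symm
        exact_mod_cast congrArg (fun r : ℝ => (r : ℂ)) this
      have e3 : (inner ℂ (c a • x a) (c j • x j) : ℂ) = ((z a j).im : ℂ) * Complex.I :=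
        hz1 a ha j hj.2.2 hj.2.1.symm
      have e4 : (inner ℂ (c b • x b) (c j • x j) : ℂ) = ((z b j).im : ℂ) * Complex.I :=
        hz1 b hb j hj.2.2 hj.1.symm
      rw [e1, e2, e3, e4]
      linear_combination ((s : ℂ) ^ 2 * (z a j).im * (z b j).im) * Complex.I_sq
    rw [h1, mul_zero] at h5
    exact_mod_cast h5
  -- three members
  obtain ⟨o, a, b, ho, ha, hb, hoa, hob, hab⟩ : ∃ o a b, o ∈ S ∧ a ∈ S ∧ b ∈ S ∧ o ≠ a ∧ o ≠ b ∧
      a ≠ b := by
    have h3 : 2 < S.card := by omega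
    obtain ⟨o, ho, a, ha, b, hb, h⟩ := Finset.two_lt_card.mp h3
    exact ⟨o, a, b, ho, ha, hb, h.1, h.2.1, h.2.2⟩
  set R : Finset (Fin (d ^ 2)) := ((S.erase o).erase a).erase b with hR
  have hRc : (R.card : ℤ) = d - 1 := by
    have h1 : R.card = S.card - 1 - 1 - 1 := by
      rw [hR, Finset.card_erase_of_mem, Finset.card_erase_of_mem, Finset.card_erase_of_mem ho]
      · exact Finset.mem_erase.mpr ⟨hoa.symm, ha⟩
      · exact Finset.mem_erase.mpr ⟨hab.symm, Finset.mem_erase.mpr ⟨hob.symm, hb⟩⟩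
    rw [h1, hS]
    omega
  have hoA : ∑ j ∈ R, B o j * B a j = -(B o b * B a b) := by
    have h1 := horth o ho a ha hoa
    have hbm : b ∈ (S.erase o).erase a :=
      Finset.mem_erase.mpr ⟨hab.symm, Finset.mem_erase.mpr ⟨hob.symm, hb⟩⟩
    rw [← Finset.add_sum_erase _ _ hbm] at h1
    linarith
  have hoB : ∑ j ∈ R, B o j * B b j = -(B o a * B b a) := by
    have h1 := horth o ho b hb hob
    have ham : a ∈ (S.erase o).erase b :=
      Finset.mem_erase.mpr ⟨hab, Finset.mem_erase.mpr ⟨hoa.symm, ha⟩⟩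
    rw [← Finset.add_sum_erase _ _ ham] at h1
    have h2 : ((S.erase o).erase b).erase a = R := by
      rw [hR, Finset.erase_right_comm]
    rw [h2] at h1
    linarith
  have hAB : ∑ j ∈ R, B a j * B b j = -(B a o * B b o) := by
    have h1 := horth a ha b hb hab
    have hom : o ∈ (S.erase a).erase b :=
      Finset.mem_erase.mpr ⟨hob, Finset.mem_erase.mpr ⟨hoa, ho⟩⟩
    rw [← Finset.add_sum_erase _ _ hom] at h1
    have h2 : ((S.erase a).erase b).erase o = R := by
      rw [hR, Finset.erase_right_comm (a := b), Finset.erase_right_comm (a := a)]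
    rw [h2] at h1
    linarith
  have hmain : ∀ ε η : ℤ, ∑ j ∈ R, (B o j + ε * B a j) * (B o j + η * B b j) =
      (d - 1) + ε * (-(B o b * B a b)) + η * (-(B o a * B b a)) + ε * η * (-(B a o * B b o)) := by
    intro ε η
    rw [← hRc, ← hoA, ← hoB, ← hAB, Finset.card_eq_sum_ones, Nat.cast_sum, Finset.mul_sum,
      Finset.mul_sum, Finset.mul_sum, ← Finset.sum_add_distrib, ← Finset.sum_add_distrib,
      ← Finset.sum_add_distrib]
    refine Finset.sum_congr rfl fun j _ => ?_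
    have := hB4 o j
    push_cast
    linear_combination this
  have hdvd : ∀ ε η : ℤ, (ε = 1 ∨ ε = -1) → (η = 1 ∨ η = -1) →
      (4 : ℤ) ∣ ∑ j ∈ R, (B o j + ε * B a j) * (B o j + η * B b j) := by
    intro ε η hε hη
    exact Finset.dvd_sum fun j _ => four_dvd_aux ε η _ _ _ hε hη (hB1 o j) (hB1 a j) (hB1 b j)
  have hsgn : ∀ i j k l, -(B i j * B k l) = 1 ∨ -(B i j * B k l) = -1 := by
    intro i j k l
    rcases hB1 i j with h | h <;> rcases hB1 k l with h' | h' <;> rw [h, h'] <;> norm_num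
  have h1 := hdvd (-(B o b * B a b)) (-(B o a * B b a)) (hsgn _ _ _ _) (hsgn _ _ _ _)
  rw [hmain, hB3 o ho a ha hoa, hB3 o ho b hb hob, hB3 a ha b hb hab] at h1
  have h2 : ((d : ℤ) - 1) + -(B o b * B a b) * (-(B o b * B a b)) +
      -(B o a * -B a b) * (-(B o a * -B a b)) +
      -(B o b * B a b) * -(B o a * -B a b) * (-(-B o a * -B o b)) = d + 2 := by
    have e1 := hB4 o b
    have e2 := hB4 a b
    have e3 := hB4 o a
    have e4 : (B o b * B o b) * (B a b * B a b) = 1 := by rw [e1, e2]; norm_num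
    have e5 : (B o a * B o a) * (B a b * B a b) = 1 := by rw [e3, e2]; norm_num
    have e6 : (B o a * B o a) * ((B o b * B o b) * (B a b * B a b)) = 1 := by
      rw [e1, e2, e3]; norm_num
    linear_combination e4 + e5 + e6
  rw [h2] at h1
  exact_mod_cast h1

end Pool.Agent.R114.SIC
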