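import Pool.Agent.R114.SIC.Real

/-!
# Systems of lines of a maximal equiangular tight frame with nearly real triple products
-/

set_option autoImplicit false

namespace Pool.Agent.R114.SIC

open Finset Matrix Pool.Agent.H109R2.SIC

variable {d : ℕ} {x : Fin (d ^ 2) → EuclideanSpace ℂ (Fin d)}

theorem norm_sum_eq (b : Fin (d ^ 2) → ℂ) :
    ∑ k, star (b k) * b k = ((∑ k, ‖b k‖ ^ 2 : ℝ) : ℂ) := by
  push_cast
  refine Finset.sum_congr rfl fun k _ => ?_
  rw [← Complex.conj_mul']; rfl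

theorem qf_re_nonneg (b : Fin (d ^ 2) → ℂ) : 0 ≤ (qf x b b).re := by
  rw [qf_eq_norm, Complex.ofReal_re]
  positivity

theorem qf_re_le (hx : IsMaxETF d x) (hd : 0 < d) (b : Fin (d ^ 2) → ℂ) :
    (qf x b b).re ≤ (2 * d / ((d : ℝ) + 1)) * ∑ k, ‖b k‖ ^ 2 := by
  have h := (defect_nonneg hx hd b
    ((2 * d / ((d : ℝ) + 1)) * ∑ k, ‖b k‖ ^ 2 - ∑ s, ∑ t, ‖Mb x b s t‖ ^ 2) (by
      rw [norm_sum_eq, qf_eq_norm]
      push_cast
      rfl)).1
  rw [qf_eq_norm, Complex.ofReal_re]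
  linarith

theorem bc_norm (S : Finset (Fin (d ^ 2))) (c : Fin (d ^ 2) → ℂ) (hc : ∀ i ∈ S, ‖c i‖ = 1) :
    ∑ k, ‖bc S c k‖ ^ 2 = (S.card : ℝ) := by
  have h := norm_bc S c hc
  rw [norm_sum_eq] at h
  exact_mod_cast h

/-- lower bound for the real part of the double sum -/
theorem double_ge (hx : IsMaxETF d x) (S : Finset (Fin (d ^ 2))) (c : Fin (d ^ 2) → ℂ)
    (hc : ∀ i ∈ S, ‖c i‖ = 1) (e : ℝ)
    (h : ∀ i ∈ S, ∀ j ∈ S, i ≠ j → e ≤ ((inner ℂ (c i • x i) (c j • x j) : ℂ) ^ 2).re) :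
    (S.card : ℝ) * (1 + ((S.card : ℝ) - 1) * e) ≤ (qf x (bc S c) (bc S c)).re := by
  rw [qf_bc, Complex.re_sum]
  have h3 : ∀ i ∈ S, 1 + ((S.card : ℝ) - 1) * e ≤
      (∑ j ∈ S, (inner ℂ (c i • x i) (c j • x j) : ℂ) ^ 2).re := by
    intro i hi
    rw [← Finset.add_sum_erase S _ hi, scaled_self hx (hc i hi), Complex.add_re, Complex.re_sum,
      one_pow, Complex.one_re]
    have h4 := Finset.card_nsmul_le_sum (S.erase i)
      (fun j => ((inner ℂ (c i • x i) (c j • x j) : ℂ) ^ 2).re) e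
      (fun j hj => h i hi j (Finset.mem_of_mem_erase hj) (Finset.ne_of_mem_erase hj).symm)
    rw [nsmul_eq_mul, Finset.card_erase_of_mem hi,
      Nat.cast_sub (Finset.card_pos.mpr ⟨i, hi⟩), Nat.cast_one] at h4
    linarith
  have h5 := Finset.card_nsmul_le_sum S _ _ h3
  rwa [nsmul_eq_mul] at h5

theorem double_le (hx : IsMaxETF d x) (S : Finset (Fin (d ^ 2))) (c : Fin (d ^ 2) → ℂ)
    (hc : ∀ i ∈ S, ‖c i‖ = 1) (e : ℝ)
    (h : ∀ i ∈ S, ∀ j ∈ S, i ≠ j → ((inner ℂ (c i • x i) (c j • x j) : ℂ) ^ 2).re ≤ e) :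
    (qf x (bc S c) (bc S c)).re ≤ (S.card : ℝ) * (1 + ((S.card : ℝ) - 1) * e) := by
  rw [qf_bc, Complex.re_sum]
  have h3 : ∀ i ∈ S, (∑ j ∈ S, (inner ℂ (c i • x i) (c j • x j) : ℂ) ^ 2).re ≤
      1 + ((S.card : ℝ) - 1) * e := by
    intro i hi
    rw [← Finset.add_sum_erase S _ hi, scaled_self hx (hc i hi), Complex.add_re, Complex.re_sum,
      one_pow, Complex.one_re]
    have h4 := Finset.sum_le_card_nsmul (S.erase i)
      (fun j => ((inner ℂ (c i • x i) (c j • x j) : ℂ) ^ 2).re) e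
      (fun j hj => h i hi j (Finset.mem_of_mem_erase hj) (Finset.ne_of_mem_erase hj).symm)
    rw [nsmul_eq_mul, Finset.card_erase_of_mem hi,
      Nat.cast_sub (Finset.card_pos.mpr ⟨i, hi⟩), Nat.cast_one] at h4
    linarith
  have h5 := Finset.sum_le_card_nsmul S _ _ h3
  rwa [nsmul_eq_mul] at h5

/-- nearly real systems have at most `1 + (d-1)/δ` members -/
theorem near_real (hx : IsMaxETF d x) (hd : 0 < d) (S : Finset (Fin (d ^ 2)))
    (c : Fin (d ^ 2) → ℂ) (hc : ∀ i ∈ S, ‖c i‖ = 1) (δ : ℝ) (hδ : 0 < δ)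
    (h : ∀ i ∈ S, ∀ j ∈ S, i ≠ j →
      δ ≤ ((d : ℝ) + 1) * ((inner ℂ (c i • x i) (c j • x j) : ℂ) ^ 2).re) :
    (S.card : ℝ) ≤ 1 + ((d : ℝ) - 1) / δ := by
  have hd1 : (0 : ℝ) < (d : ℝ) + 1 := by positivity
  have hdR : (1 : ℝ) ≤ d := by exact_mod_cast hd
  rcases S.eq_empty_or_nonempty with rfl | hne
  · have : 0 ≤ ((d : ℝ) - 1) / δ := div_nonneg (by linarith) hδ.le
    simp only [Finset.card_empty, Nat.cast_zero]
    linarith
  have h1 := double_ge hx S c hc (δ / ((d : ℝ) + 1)) (fun i hi j hj hij => by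
    rw [div_le_iff₀ hd1]
    have := h i hi j hj hij
    linarith)
  have h2 := qf_re_le hx hd (bc S c)
  rw [bc_norm S c hc] at h2
  have hS : (0 : ℝ) < S.card := by exact_mod_cast Finset.card_pos.mpr hne
  have h3 : (S.card : ℝ) * (1 + ((S.card : ℝ) - 1) * (δ / ((d : ℝ) + 1))) ≤
      (S.card : ℝ) * (2 * d / ((d : ℝ) + 1)) := by linarith
  have h4 := le_of_mul_le_mul_left h3 hS
  have e1 : 1 + ((S.card : ℝ) - 1) * (δ / ((d : ℝ) + 1)) =
      (((d : ℝ) + 1) + ((S.card : ℝ) - 1) * δ) / ((d : ℝ) + 1) := by field_simp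
  rw [e1, div_le_div_iff_of_pos_right hd1] at h4
  have h5 : (S.card : ℝ) - 1 ≤ ((d : ℝ) - 1) / δ := by
    rw [le_div_iff₀ hδ]
    linarith
  linarith

/-- nearly imaginary systems have at most `1 + (d+1)/δ` members -/
theorem near_imag (hx : IsMaxETF d x) (S : Finset (Fin (d ^ 2)))
    (c : Fin (d ^ 2) → ℂ) (hc : ∀ i ∈ S, ‖c i‖ = 1) (δ : ℝ) (hδ : 0 < δ)
    (h : ∀ i ∈ S, ∀ j ∈ S, i ≠ j →
      ((d : ℝ) + 1) * ((inner ℂ (c i • x i) (c j • x j) : ℂ) ^ 2).re ≤ -δ) :
    (S.card : ℝ) ≤ 1 + ((d : ℝ) + 1) / δ := by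
  have hd1 : (0 : ℝ) < (d : ℝ) + 1 := by positivity
  rcases S.eq_empty_or_nonempty with rfl | hne
  · have : 0 ≤ ((d : ℝ) + 1) / δ := div_nonneg (by linarith) hδ.le
    simp only [Finset.card_empty, Nat.cast_zero]
    linarith
  have h1 := double_le hx S c hc (-δ / ((d : ℝ) + 1)) (fun i hi j hj hij => by
    rw [le_div_iff₀ hd1]
    have := h i hi j hj hij
    linarith)
  have h2 := qf_re_nonneg (x := x) (bc S c)
  have hS : (0 : ℝ) < S.card := by exact_mod_cast Finset.card_pos.mpr hne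
  have h3 : 0 ≤ (S.card : ℝ) * (1 + ((S.card : ℝ) - 1) * (-δ / ((d : ℝ) + 1))) := by linarith
  have h4 := nonneg_of_mul_nonneg_right h3 hS
  have e1 : 1 + ((S.card : ℝ) - 1) * (-δ / ((d : ℝ) + 1)) =
      (((d : ℝ) + 1) - ((S.card : ℝ) - 1) * δ) / ((d : ℝ) + 1) := by field_simp; ring
  rw [e1] at h4
  have h6 := mul_nonneg h4 hd1.le
  rw [div_mul_cancel₀ _ hd1.ne'] at h6
  have h5 : (S.card : ℝ) - 1 ≤ ((d : ℝ) + 1) / δ := by
    rw [le_div_iff₀ hδ]
    linarith
  linarith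

/-- the triple product -/
noncomputable def tp (x : Fin (d ^ 2) → EuclideanSpace ℂ (Fin d)) (i j k : Fin (d ^ 2)) : ℂ :=
  inner ℂ (x i) (x j) * inner ℂ (x j) (x k) * inner ℂ (x k) (x i)

/-- phases from a base line -/
theorem phases_of_base (hx : IsMaxETF d x) (o : Fin (d ^ 2)) :
    ∃ c : Fin (d ^ 2) → ℂ, (∀ i, ‖c i‖ = 1) ∧ c o = 1 ∧
      (∀ i, i ≠ o → (inner ℂ (c o • x o) (c i • x i) : ℂ) = ((1 / Real.sqrt ((d : ℝ) + 1) : ℝ) : ℂ)) ∧
      ∀ i j, i ≠ o → j ≠ o → (inner ℂ (c i • x i) (c j • x j) : ℂ) =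
        ((d : ℂ) + 1) * tp x o i j := by
  classical
  set s : ℝ := Real.sqrt ((d : ℝ) + 1) with hs
  have hspos : 0 < s := Real.sqrt_pos.mpr (by positivity)
  have hs2 : s ^ 2 = (d : ℝ) + 1 := Real.sq_sqrt (by positivity)
  have hs2C : (s : ℂ) * s = (d : ℂ) + 1 := by
    rw [← Complex.ofReal_mul, ← sq, hs2]; push_cast; rfl
  refine ⟨fun j => if j = o then 1 else (s : ℂ) * inner ℂ (x j) (x o), ?_, if_pos rfl, ?_, ?_⟩
  · intro i
    by_cases h : i = o
    · simp [h]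
    · simp only [if_neg h]
      rw [norm_mul, Complex.norm_real, Real.norm_of_nonneg hspos.le, hx.2 i o h]
      exact mul_one_div_cancel hspos.ne'
  · intro i hi
    simp only [if_neg hi, if_true]
    rw [inner_smul_smul, star_one, one_mul]
    have h1 : inner ℂ (x i) (x o) * inner ℂ (x o) (x i) = 1 / ((d : ℂ) + 1) := by
      rw [inner_mul_inner hx, if_neg hi]
    calc (s : ℂ) * inner ℂ (x i) (x o) * inner ℂ (x o) (x i)
        = s * (inner ℂ (x i) (x o) * inner ℂ (x o) (x i)) := by ring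
      _ = _ := by
        rw [h1, ← hs2C]
        push_cast
        have : (s : ℂ) ≠ 0 := by exact_mod_cast hspos.ne'
        field_simp
  · intro i j hi hj
    simp only [if_neg hi, if_neg hj]
    rw [inner_smul_smul, star_mul', star_inner]
    have : star (s : ℂ) = s := by simp
    rw [this, ← hs2C]
    unfold tp
    ring

/-- all triple products of members of `S` are real -/
def RealSys (x : Fin (d ^ 2) → EuclideanSpace ℂ (Fin d)) (S : Finset (Fin (d ^ 2))) : Prop :=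
  ∀ i ∈ S, ∀ j ∈ S, ∀ k ∈ S, (tp x i j k).im = 0

/-- all triple products of distinct members of `S` are purely imaginary -/
def ImagSys (x : Fin (d ^ 2) → EuclideanSpace ℂ (Fin d)) (S : Finset (Fin (d ^ 2))) : Prop :=
  ∀ i ∈ S, ∀ j ∈ S, ∀ k ∈ S, i ≠ j → j ≠ k → k ≠ i → (tp x i j k).re = 0

theorem tp_scaled (i j k : Fin (d ^ 2)) (c : Fin (d ^ 2) → ℂ)
    (hi : ‖c i‖ = 1) (hj : ‖c j‖ = 1) (hk : ‖c k‖ = 1) :
    tp x i j k = inner ℂ (c i • x i) (c j • x j) * inner ℂ (c j • x j) (c k • x k) *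
      inner ℂ (c k • x k) (c i • x i) := by
  have h1 : ∀ i, ‖c i‖ = 1 → star (c i) * c i = 1 := by
    intro i hi
    have := Complex.conj_mul' (c i)
    change (starRingEnd ℂ) (c i) * c i = 1
    rw [this, hi]
    norm_num
  simp only [inner_smul_smul]
  unfold tp
  calc inner ℂ (x i) (x j) * inner ℂ (x j) (x k) * inner ℂ (x k) (x i)
      = (1 * 1 * 1) * (inner ℂ (x i) (x j) * inner ℂ (x j) (x k) * inner ℂ (x k) (x i)) := by ring
    _ = ((star (c i) * c i) * (star (c j) * c j) * (star (c k) * c k)) *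
        (inner ℂ (x i) (x j) * inner ℂ (x j) (x k) * inner ℂ (x k) (x i)) := by
        rw [h1 i hi, h1 j hj, h1 k hk]
    _ = _ := by ring

theorem realSys_iff (hx : IsMaxETF d x) (S : Finset (Fin (d ^ 2))) :
    RealSys x S ↔ ∃ c, RealPhases x S c := by
  constructor
  · intro h
    rcases S.eq_empty_or_nonempty with rfl | ⟨o, ho⟩
    · exact ⟨fun _ => 1, by simp [RealPhases]⟩
    obtain ⟨c, hc1, hc2, hc3, hc4⟩ := phases_of_base hx o
    refine ⟨c, fun i _ => hc1 i, fun i hi j hj => ?_⟩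
    by_cases hio : i = o
    · by_cases hjo : j = o
      · subst hio; subst hjo
        rw [scaled_self hx (hc1 _)]
        simp
      · subst hio
        rw [hc3 j hjo]
        exact Complex.ofReal_im _
    · by_cases hjo : j = o
      · subst hjo
        rw [← star_inner, hc3 i hio]
        simp
      · rw [hc4 i j hio hjo]
        have := h o ho i hi j hj
        have h2 : ((d : ℂ) + 1) = (((d : ℝ) + 1 : ℝ) : ℂ) := by push_cast; rfl
        rw [h2, Complex.im_ofReal_mul, this, mul_zero]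
  · rintro ⟨c, hc⟩ i hi j hj k hk
    rw [tp_scaled i j k c (hc.1 i hi) (hc.1 j hj) (hc.1 k hk)]
    have h1 : ∀ i ∈ S, ∀ j ∈ S, (inner ℂ (c i • x i) (c j • x j) : ℂ) =
        (((inner ℂ (c i • x i) (c j • x j) : ℂ).re : ℝ) : ℂ) := by
      intro i hi j hj
      exact Complex.ext (by rw [Complex.ofReal_re]) (by rw [hc.2 i hi j hj, Complex.ofReal_im])
    rw [h1 i hi j hj, h1 j hj k hk, h1 k hk i hi, ← Complex.ofReal_mul, ← Complex.ofReal_mul]
    exact Complex.ofReal_im _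

theorem imagSys_iff (hx : IsMaxETF d x) (S : Finset (Fin (d ^ 2))) :
    ImagSys x S ↔ ∃ c, ImagPhases x S c := by
  constructor
  · intro h
    rcases S.eq_empty_or_nonempty with rfl | ⟨o, ho⟩
    · exact ⟨fun _ => 1, by simp [ImagPhases]⟩
    obtain ⟨c, hc1, hc2, hc3, hc4⟩ := phases_of_base hx o
    classical
    have hne : ∀ i, i ≠ o → Function.update c o Complex.I i = c i := fun i hi =>
      Function.update_of_ne hi _ _
    have hoo : Function.update c o Complex.I o = Complex.I := Function.update_self _ _ _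
    have key : ∀ i, i ≠ o → (inner ℂ (Complex.I • x o) (c i • x i) : ℂ).re = 0 := by
      intro i hi
      have h1 := hc3 i hi
      rw [hc2, inner_smul_smul, star_one, one_mul] at h1
      rw [inner_smul_smul]
      have : star Complex.I * c i * (inner ℂ (x o) (x i) : ℂ) =
          star Complex.I * (c i * inner ℂ (x o) (x i)) := by ring
      rw [this, h1]
      simp
    refine ⟨Function.update c o Complex.I, fun i _ => ?_, fun i hi j hj hij => ?_⟩
    · by_cases hio : i = o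
      · subst hio; rw [hoo]; simp
      · rw [hne i hio]; exact hc1 i
    by_cases hio : i = o
    · subst hio
      rw [hoo, hne j hij.symm]
      exact key j hij.symm
    · by_cases hjo : j = o
      · subst hjo
        rw [hoo, hne i hio, ← star_inner]
        have := key i hio
        simp only [RCLike.star_def, Complex.conj_re]
        exact this
      · rw [hne i hio, hne j hjo, hc4 i j hio hjo]
        have := h o ho i hi j hj (Ne.symm hio) hij hjo
        have h2 : ((d : ℂ) + 1) = (((d : ℝ) + 1 : ℝ) : ℂ) := by push_cast; rfl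
        rw [h2, Complex.re_ofReal_mul, this, mul_zero]
  · rintro ⟨c, hc⟩ i hi j hj k hk hij hjk hki
    rw [tp_scaled i j k c (hc.1 i hi) (hc.1 j hj) (hc.1 k hk)]
    have h1 : ∀ i ∈ S, ∀ j ∈ S, i ≠ j → (inner ℂ (c i • x i) (c j • x j) : ℂ) =
        (((inner ℂ (c i • x i) (c j • x j) : ℂ).im : ℝ) : ℂ) * Complex.I := by
      intro i hi j hj hij
      exact Complex.ext (by rw [hc.2 i hi j hj hij]; simp) (by simp)
    rw [h1 i hi j hj hij, h1 j hj k hk hjk, h1 k hk i hi hki]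
    have h3 : ∀ a b e : ℝ, (((a : ℂ) * Complex.I) * ((b : ℂ) * Complex.I)) *
        ((e : ℂ) * Complex.I) = ((-(a * b * e) : ℝ) : ℂ) * Complex.I := by
      intro a b e
      push_cast
      linear_combination ((a : ℂ) * b * e * Complex.I) * Complex.I_sq
    rw [h3]
    simp

end Pool.Agent.R114.SIC
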