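import Pool.Agent.H109R2.SIC.Frame

/-!
# Sidon property of the Singer difference set, and a subset with small character sums
-/

set_option autoImplicit false

open Finset

namespace Pool.Agent.R114.SIC

open Pool.Agent.H109R2.SIC

variable (p : ℕ) [Fact p.Prime]

/-- every nonzero element is exactly once a difference of two elements of `D3` -/
theorem rep_card (g : A3 p) (hg : g ≠ 0) :
    (((D3 p) ×ˢ (D3 p)).filter fun q => q.1 - q.2 = g).card = 1 := by
  classical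
  have hcA : Fintype.card (AddChar (A3 p) ℂ) = p ^ 2 + p + 1 := by
    rw [AddChar.card_eq, card_A3]
  have h1 : ∑ ψ : AddChar (A3 p) ℂ, ∑ q ∈ (D3 p) ×ˢ (D3 p), ψ (q.1 - q.2 - g) =
      ((p ^ 2 + p + 1 : ℕ) : ℂ) *
        (((D3 p) ×ˢ (D3 p)).filter fun q => q.1 - q.2 = g).card := by
    rw [sum_comm]
    have h2 : ∀ q ∈ (D3 p) ×ˢ (D3 p), ∑ ψ : AddChar (A3 p) ℂ, ψ (q.1 - q.2 - g) =
        if q.1 - q.2 = g then ((p ^ 2 + p + 1 : ℕ) : ℂ) else 0 := by
      intro q _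
      rw [AddChar.sum_apply_eq_ite, card_A3]
      simp only [sub_eq_zero]
    rw [sum_congr rfl h2, ← sum_filter, sum_const, nsmul_eq_mul]
    ring
  have h3 : ∀ ψ : AddChar (A3 p) ℂ, ∑ q ∈ (D3 p) ×ˢ (D3 p), ψ (q.1 - q.2 - g) =
      ((‖∑ x ∈ D3 p, ψ x‖ ^ 2 : ℝ) : ℂ) * ψ (-g) := by
    intro ψ
    rw [Complex.ofReal_pow, ← Complex.mul_conj', map_sum, sum_mul_sum, sum_mul, sum_product]
    apply sum_congr rfl
    intro x _
    rw [sum_mul]
    apply sum_congr rfl
    intro y _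
    rw [← AddChar.inv_apply_eq_conj, sub_eq_add_neg _ g, AddChar.map_add_eq_mul,
      AddChar.map_sub_eq_div, div_eq_mul_inv]
  have h4 : ∑ ψ : AddChar (A3 p) ℂ, ψ (-g) = 0 := by
    rw [AddChar.sum_apply_eq_ite, if_neg (neg_ne_zero.mpr hg)]
  have h5 : ∑ ψ : AddChar (A3 p) ℂ, ((‖∑ x ∈ D3 p, ψ x‖ ^ 2 : ℝ) : ℂ) * ψ (-g) =
      ((p : ℂ) + 1) ^ 2 - p := by
    rw [← Finset.add_sum_erase univ _ (mem_univ (1 : AddChar (A3 p) ℂ))]
    have h6 : ∀ ψ ∈ (univ : Finset (AddChar (A3 p) ℂ)).erase 1,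
        ((‖∑ x ∈ D3 p, ψ x‖ ^ 2 : ℝ) : ℂ) * ψ (-g) = (p : ℂ) * ψ (-g) := by
      intro ψ hψ
      rw [norm_sum_D3 p ψ (ne_of_mem_erase hψ)]
      simp
    rw [sum_congr rfl h6, ← mul_sum]
    have h7 : ∑ ψ ∈ (univ : Finset (AddChar (A3 p) ℂ)).erase 1, ψ (-g) = -1 := by
      have h8 := Finset.add_sum_erase univ (fun ψ : AddChar (A3 p) ℂ => ψ (-g))
        (mem_univ (1 : AddChar (A3 p) ℂ))
      rw [h4] at h8
      simp only [AddChar.one_apply] at h8
      linear_combination h8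
    rw [h7]
    simp only [AddChar.one_apply, sum_const, card_D3, nsmul_eq_mul, mul_one]
    have h9 : ‖((p + 1 : ℕ) : ℂ)‖ = (p : ℝ) + 1 := by
      rw [Complex.norm_natCast]; push_cast; ring
    rw [h9]
    push_cast
    ring
  have h10 : ((p ^ 2 + p + 1 : ℕ) : ℂ) *
        (((D3 p) ×ˢ (D3 p)).filter fun q => q.1 - q.2 = g).card =
        ((p ^ 2 + p + 1 : ℕ) : ℂ) * 1 := by
    rw [← h1, sum_congr rfl (fun ψ _ => h3 ψ), h5]
    push_cast
    ring
  have h11 : ((p ^ 2 + p + 1 : ℕ) : ℂ) ≠ 0 := by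
    exact_mod_cast (by positivity : p ^ 2 + p + 1 ≠ 0)
  exact_mod_cast mul_left_cancel₀ h11 h10

/-- `D3` is a Sidon set -/
theorem sidon {a b c e : A3 p} (ha : a ∈ D3 p) (hb : b ∈ D3 p) (hc : c ∈ D3 p) (he : e ∈ D3 p)
    (h : a + b = c + e) : (a = c ∧ b = e) ∨ (a = e ∧ b = c) := by
  classical
  have h1 : a - c = e - b := by
    rw [sub_eq_sub_iff_add_eq_add, h, add_comm]
  rcases eq_or_ne (a - c) 0 with h0 | h0
  · left
    refine ⟨sub_eq_zero.mp h0, ?_⟩
    rw [h0] at h1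
    exact (sub_eq_zero.mp h1.symm).symm
  · right
    have h2 := rep_card p (a - c) h0
    rw [card_eq_one] at h2
    obtain ⟨q, hq⟩ := h2
    have h3 : (a, c) ∈ (((D3 p) ×ˢ (D3 p)).filter fun q => q.1 - q.2 = a - c) := by
      simp [ha, hc]
    have h4 : (e, b) ∈ (((D3 p) ×ˢ (D3 p)).filter fun q => q.1 - q.2 = a - c) := by
      simp [he, hb, h1]
    rw [hq, mem_singleton] at h3 h4
    have h5 : (a, c) = (e, b) := h3.trans h4.symm
    exact ⟨congrArg Prod.fst h5, (congrArg Prod.snd h5).symm⟩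

/-- The complement in `D3` of a set of `p + 1 - d` elements with small character sums. -/
lemma exists_sub' (d : ℕ) (hdp : d ≤ p + 1) (L : ℝ) (hL1 : 1 ≤ L)
    (hL : Real.log (2 * (2 * ((p : ℝ) ^ 2 + p + 1) + 1)) ≤ L) :
    ∃ E : Finset (A3 p), E ⊆ D3 p ∧ E.card = d ∧
      ∀ ψ : AddChar (A3 p) ℂ, ψ ≠ 1 →
        |‖∑ g ∈ E, ψ g‖ - √p| ≤ 9 * √(((p + 1 - d : ℕ) : ℝ) * L) := by
  classical
  set m := p + 1 - d with hm
  have hmp : m ≤ (D3 p).card := by rw [card_D3]; omega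
  have hcA : Fintype.card (AddChar (A3 p) ℂ) = p ^ 2 + p + 1 := by
    rw [AddChar.card_eq, card_A3]
  obtain ⟨M, hMD, hMc, hM⟩ := select (D3 p)
    (univ : Finset (AddChar (A3 p) ℂ × Bool))
    (fun i x => if i.2 = true then (i.1 x).re else (i.1 x).im)
    (by
      intro i _ x _
      have h1 : ‖i.1 x‖ = 1 := i.1.norm_apply x
      show |if i.2 = true then (i.1 x).re else (i.1 x).im| ≤ 1
      split_ifs
      · exact (Complex.abs_re_le_norm _).trans h1.le
      · exact (Complex.abs_im_le_norm _).trans h1.le) m hmp L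
    (by
      rw [card_univ, Fintype.card_prod, hcA, Fintype.card_bool]
      push_cast
      refine le_trans (le_of_eq ?_) hL
      congr 1
      ring)
  refine ⟨D3 p \ M, sdiff_subset, ?_, ?_⟩
  · rw [card_sdiff_of_subset hMD, card_D3, hMc]
    omega
  · intro ψ hψ
    have hpR : (0 : ℝ) < p := by exact_mod_cast (by have := p_pos p; omega : 0 < p)
    set SD := ∑ g ∈ D3 p, ψ g with hSD
    set SM := ∑ g ∈ M, ψ g with hSM
    have hnD : ‖SD‖ = √p := by
      rw [← norm_sum_D3 p ψ hψ, Real.sqrt_sq (norm_nonneg _)]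
    have hsub : ∑ g ∈ D3 p \ M, ψ g = SD - SM := by
      rw [hSD, ← sum_sdiff hMD]
      ring
    set r : ℝ := (m : ℝ) / ((D3 p).card : ℝ) with hr
    have hre := hM (ψ, true) (mem_univ _)
    have him := hM (ψ, false) (mem_univ _)
    simp only [if_true, Bool.false_eq_true, if_false] at hre him
    rw [← Complex.re_sum, ← Complex.re_sum, ← hSD, ← hSM] at hre
    rw [← Complex.im_sum, ← Complex.im_sum, ← hSD, ← hSM] at him
    have h1 : ‖SM - (r : ℂ) * SD‖ ≤ 8 * √(m * L) := by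
      refine (Complex.norm_le_abs_re_add_abs_im _).trans ?_
      have e1 : (SM - (r : ℂ) * SD).re = SM.re - r * SD.re := by simp
      have e2 : (SM - (r : ℂ) * SD).im = SM.im - r * SD.im := by simp
      rw [e1, e2]
      linarith
    have hr0 : 0 ≤ r := by positivity
    have h2 : r * √p ≤ √(m * L) := by
      rw [hr, card_D3]
      apply Real.le_sqrt_of_sq_le
      rw [mul_pow, Real.sq_sqrt hpR.le, div_pow, div_mul_eq_mul_div, div_le_iff₀ (by positivity)]
      push_cast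
      have h3 : (m : ℝ) ≤ p + 1 := by
        have : m ≤ p + 1 := by omega
        exact_mod_cast this
      have hm0 : (0 : ℝ) ≤ m := Nat.cast_nonneg _
      have h4 : (m : ℝ) ^ 2 * p ≤ m * (p + 1) * (p + 1) := by
        have : (m : ℝ) ^ 2 ≤ m * (p + 1) := by nlinarith
        nlinarith
      nlinarith [mul_nonneg hm0 (sub_nonneg.mpr hL1),
        mul_nonneg (mul_nonneg hm0 (sub_nonneg.mpr hL1)) (sq_nonneg ((p : ℝ) + 1))]
    have h5 : ‖SM‖ ≤ 9 * √(m * L) := by
      have h6 : SM = (SM - (r : ℂ) * SD) + (r : ℂ) * SD := by ring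
      calc ‖SM‖ = ‖(SM - (r : ℂ) * SD) + (r : ℂ) * SD‖ := by rw [← h6]
        _ ≤ ‖SM - (r : ℂ) * SD‖ + ‖(r : ℂ) * SD‖ := norm_add_le _ _
        _ ≤ 8 * √(m * L) + √(m * L) := by
            apply add_le_add h1
            rw [norm_mul, hnD, Complex.norm_real, Real.norm_of_nonneg hr0]
            exact h2
        _ = 9 * √(m * L) := by ring
    rw [hsub]
    have h7 := abs_norm_sub_norm_le (SD - SM) SD
    have h8 : ‖SD - SM - SD‖ = ‖SM‖ := by
      rw [← norm_neg]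
      congr 1
      ring
    rw [h8, hnD] at h7
    exact h7.trans h5

end Pool.Agent.R114.SIC
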